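import Pool.Agent.Lib.MP_bb37eb_nt.EC.Azumaya0
import Pool.Agent.Lib.MP_bb37eb_nt.BR.AzuBase

/-! The classes `al` on the two charts of the curve. -/

namespace BB37

open scoped TensorProduct
open WeierstrassCurve

/-- the coordinate ring of the affine curve -/
abbrev RC (b : ℚ) : Type := (Wq b).toAffine.CoordinateRing

/-- the coordinate `x` -/
noncomputable def rcX (b : ℚ) : RC b := Affine.CoordinateRing.mk _ (Polynomial.C Polynomial.X)

/-- the coordinate `y` -/
noncomputable def rcY (b : ℚ) : RC b := Affine.CoordinateRing.mk _ Polynomial.X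

/-- the universal property of the coordinate ring -/
theorem exists_rcLift (b : ℚ) (Ω : Type) [CommRing Ω] (σ : ℚ →+* Ω) (u v : Ω)
    (h : v ^ 2 = u ^ 3 + σ b * u) : ∃ f : RC b →+* Ω, f (rcX b) = u ∧ f (rcY b) = v ∧
      ∀ t : ℚ, f (algebraMap ℚ (RC b) t) = σ t := by
  let f₁ : Polynomial ℚ →+* Ω := Polynomial.eval₂RingHom σ u
  have hf : (Wq b).toAffine.polynomial.eval₂ f₁ v = 0 := by
    simp only [Affine.polynomial, Wq, f₁]
    simp [Polynomial.eval₂_pow, h]
  refine ⟨AdjoinRoot.lift f₁ v hf, ?_, ?_, ?_⟩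
  · exact (AdjoinRoot.lift_of hf).trans (by simp [f₁])
  · exact AdjoinRoot.lift_root hf
  · intro t
    exact (AdjoinRoot.lift_of hf).trans (by simp [f₁])

/-- the chart `E - 0` -/
theorem chart0 {b : ℕ → ℚ} (hb : Tower b) {d : ℕ} (ξ : Xi b d) :
    ∃ (A : Type) (_ : Ring A) (_ : Algebra (RC (b d)) A), IsAzumaya (RC (b d)) A ∧
    ∀ (K : Type) [Field K] [CharZero K] (θ : RC (b d) →+* K) (x y : K)
      (_ : θ (rcX (b d)) = x) (_ : θ (rcY (b d)) = y)
      (c : Z2 K) (_ : cls c = al hb ξ (mk (b d) x y)),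
      letI := θ.toAlgebra
      HasClass K (K ⊗[RC (b d)] A) c := by
  obtain ⟨A, h1, h2, h3, h4⟩ := EC_azumaya0 hb ξ 1
  refine ⟨A, h1, h2, h3, ?_⟩
  intro K _ _ θ x y hx hy c hc
  obtain ⟨c', hc', e⟩ := al_spec hb ξ (mk (b d) x y)
  have h := h4 K θ x y hx hy c' hc'
  let _ := θ.toAlgebra
  refine HasClass.of_cls K h ?_
  rw [map_one, mul_one, e, hc]

/-- the ring of the chart `E - T`, `r = 1 / x`, `s = y / x ^ 2` -/
noncomputable def relT (b : ℚ) : Ideal (MvPolynomial (Fin 2) ℚ) :=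
  Ideal.span {MvPolynomial.X 1 ^ 2 - (MvPolynomial.X 0 + MvPolynomial.C b * MvPolynomial.X 0 ^ 3)}

/-- the ring of the chart `E - T` -/
abbrev RT (b : ℚ) : Type := MvPolynomial (Fin 2) ℚ ⧸ relT b

/-- the coordinate `r = 1 / x` -/
noncomputable def rtR (b : ℚ) : RT b := Ideal.Quotient.mk (relT b) (MvPolynomial.X 0)

/-- the coordinate `s = y / x ^ 2` -/
noncomputable def rtS (b : ℚ) : RT b := Ideal.Quotient.mk (relT b) (MvPolynomial.X 1)

theorem rt_eq (b : ℚ) : rtS b ^ 2 = rtR b + algebraMap ℚ (RT b) b * rtR b ^ 3 := by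
  have h : Ideal.Quotient.mk (relT b) (MvPolynomial.X 1 ^ 2 -
      (MvPolynomial.X 0 + MvPolynomial.C b * MvPolynomial.X 0 ^ 3)) = 0 :=
    Ideal.Quotient.eq_zero_iff_mem.2 (Ideal.subset_span rfl)
  rw [map_sub, map_add, map_mul, map_pow, map_pow] at h
  exact sub_eq_zero.1 h

open Classical in
/-- the point with coordinates `r`, `s` -/
noncomputable def ptT (b : ℚ) {K : Type} [Field K] [Algebra ℚ K] (r s : K) : Pt b K :=
  if r = 0 then 0 else mk b (1 / r) (s / r ^ 2)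

theorem onCurve_ptT (b : ℚ) {K : Type} [Field K] [Algebra ℚ K] {r s : K}
    (h : s ^ 2 = r + algebraMap ℚ K b * r ^ 3) (hr : r ≠ 0) :
    OnCurve b K (1 / r) (s / r ^ 2) := by
  rw [OnCurve]
  field_simp
  linear_combination h

/-- translation by `T` -/
theorem ptT_add_T {b : ℚ} (hb : b ≠ 0) {K : Type} [Field K] [Algebra ℚ K] {r s : K}
    (h : s ^ 2 = r + algebraMap ℚ K b * r ^ 3) :
    mk b (algebraMap ℚ K b * r) (-(algebraMap ℚ K b * s)) = ptT b r s + T b := by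
  by_cases hr : r = 0
  · have hs : s = 0 := by
      rw [hr] at h
      apply pow_eq_zero_iff (two_ne_zero) |>.1
      rw [h]
      ring
    rw [ptT, if_pos hr, zero_add, hr, hs, mul_zero, neg_zero, T]
  · rw [ptT, if_neg hr, add_T hb (onCurve_ptT b h hr) (one_div_ne_zero hr)]
    congr 1
    · field_simp
    · field_simp

/-- the chart `E - T` -/
theorem chartT {b : ℕ → ℚ} (hb : Tower b) {d : ℕ} (ξ : Xi b d) :
    ∃ (A : Type) (_ : Ring A) (_ : Algebra (RT (b d)) A), IsAzumaya (RT (b d)) A ∧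
    ∀ (K : Type) [Field K] [CharZero K] (θ : RT (b d) →+* K) (r s : K)
      (_ : θ (rtR (b d)) = r) (_ : θ (rtS (b d)) = s)
      (c : Z2 K) (_ : cls c = al hb ξ (ptT (b d) r s)),
      letI := θ.toAlgebra
      HasClass K (K ⊗[RT (b d)] A) c := by
  obtain ⟨c₁, hc₁⟩ := cls_surj (al0 hb ξ (T (b d)))
  obtain ⟨A, h1, h2, h3, h4⟩ := EC_azumaya0 hb ξ c₁⁻¹
  obtain ⟨τ, hτx, hτy, hτc⟩ := exists_rcLift (b d) (RT (b d)) (algebraMap ℚ (RT (b d)))
    (algebraMap ℚ (RT (b d)) (b d) * rtR (b d)) (-(algebraMap ℚ (RT (b d)) (b d) * rtS (b d))) (by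
      have e := rt_eq (b d)
      linear_combination (algebraMap ℚ (RT (b d)) (b d)) ^ 2 * e)
  let _ : Algebra (RC (b d)) (RT (b d)) := τ.toAlgebra
  refine ⟨RT (b d) ⊗[RC (b d)] A, inferInstance, inferInstance,
    azumaya_baseChange (RC (b d)) (RT (b d)) A, ?_⟩
  intro K _ _ θ r s hr hs c hc
  let _ : Algebra (RT (b d)) K := θ.toAlgebra
  let _ : Algebra (RC (b d)) K := (θ.comp τ).toAlgebra
  have : IsScalarTower (RC (b d)) (RT (b d)) K := IsScalarTower.of_algebraMap_eq fun x => rfl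
  have eb : θ (algebraMap ℚ (RT (b d)) (b d)) = algebraMap ℚ K (b d) := by
    have : θ.comp (algebraMap ℚ (RT (b d))) = algebraMap ℚ K := Subsingleton.elim _ _
    exact congrArg (fun f : ℚ →+* K => f (b d)) this
  have hrs : s ^ 2 = r + algebraMap ℚ K (b d) * r ^ 3 := by
    have e := congrArg θ (rt_eq (b d))
    rw [map_pow, map_add, map_mul, map_pow, hr, hs, eb] at e
    exact e
  obtain ⟨c', hc', e⟩ := al_spec hb ξ
    (mk (b d) (algebraMap ℚ K (b d) * r) (-(algebraMap ℚ K (b d) * s)))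
  have h := h4 K (θ.comp τ) _ _ (by
    change θ (τ (rcX (b d))) = algebraMap ℚ K (b d) * r
    rw [hτx, map_mul, eb, hr]) (by
    change θ (τ (rcY (b d))) = -(algebraMap ℚ K (b d) * s)
    rw [hτy, map_neg, map_mul, eb, hs]) c' hc'
  have h' : HasClass K (K ⊗[RC (b d)] A) c := by
    refine HasClass.of_cls K h ?_
    have e1 : cls (resZ ℚ K c₁) = al hb ξ (T (b d) : Pt (b d) K) := by
      rw [← res_cls, hc₁, al0_res, mapF_T (hb.ne' d)]
    rw [map_inv, cls_mul, cls_inv, e1, e, hc, ptT_add_T (hb.ne' d) hrs, al_add, mul_inv_cancel_right]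
  exact HasClass.of_algEquiv K (fibreTrans' (RC (b d)) (RT (b d)) K A).symm h'

end BB37
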