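import Pool.Agent.Lib.MP_bb37eb_nt.EC.Trans

/-! The group `N x| Gal(L/Q)` and its action on the ring `S`. -/

namespace BB37

/-- the group of pairs of a kernel point and an automorphism of `L` -/
@[ext] structure Gam {b : ℕ → ℚ} {d : ℕ} {L : Type} [Field L] [Algebra ℚ L]
    (C : Ctx b d L) where
  /-- the kernel point -/
  P : Pt (b 0) L
  /-- the automorphism -/
  g : L ≃ₐ[ℚ] L
  hP : downF b L d P = 0

namespace Ctx

variable {b : ℕ → ℚ} {d : ℕ} {L : Type} [Field L] [Algebra ℚ L] {C : Ctx b d L}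

noncomputable instance : Mul (Gam C) :=
  ⟨fun γ δ => ⟨γ.P + mapF (b 0) (γ.g : L →ₐ[ℚ] L) δ.P, γ.g * δ.g, by
    rw [down_add C.tower, down_mapF C.tower, γ.hP, δ.hP, mapF_zero, add_zero]⟩⟩

noncomputable instance : One (Gam C) := ⟨⟨0, 1, down_zero C.tower d⟩⟩

noncomputable instance : Inv (Gam C) :=
  ⟨fun γ => ⟨-mapF (b 0) (γ.g⁻¹ : L ≃ₐ[ℚ] L).toAlgHom γ.P, γ.g⁻¹, by
    rw [down_neg C.tower, down_mapF C.tower, γ.hP, mapF_zero, neg_zero]⟩⟩

theorem mul_P (γ δ : Gam C) : (γ * δ).P = γ.P + mapF (b 0) (γ.g : L →ₐ[ℚ] L) δ.P := rfl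

theorem mul_g (γ δ : Gam C) : (γ * δ).g = γ.g * δ.g := rfl

theorem one_P : (1 : Gam C).P = 0 := rfl

theorem one_g : (1 : Gam C).g = 1 := rfl

noncomputable instance : Group (Gam C) := by
  refine Group.ofLeftAxioms ?_ ?_ ?_
  · intro α β γ
    apply Gam.ext
    · rw [mul_P, mul_P, mul_P, mul_P, mapF_add, mapF_mapF, add_assoc]
      rfl
    · exact mul_assoc _ _ _
  · intro γ
    apply Gam.ext
    · rw [mul_P, one_P, zero_add]
      exact mapF_id _
    · exact one_mul _
  · intro γ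
    apply Gam.ext
    · exact neg_add_cancel _
    · exact inv_mul_cancel _

theorem finite_gam (C : Ctx b d L) : Finite (Gam C) := by
  have := C.fin
  have h1 : Finite {P : Pt (b 0) L // downF b L d P = 0} := (ker_finite C.tower d).to_subtype
  refine Finite.of_injective (β := {P : Pt (b 0) L // downF b L d P = 0} × (L ≃ₐ[ℚ] L))
    (fun γ => (⟨γ.P, γ.hP⟩, γ.g)) ?_
  intro γ δ h
  rw [Prod.mk.injEq, Subtype.mk.injEq] at h
  exact Gam.ext h.1 h.2

/-- the action, as ring homomorphisms -/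
theorem exists_act (γ : Gam C) : ∃ A : C.S →+* C.S,
    ∀ (Ω : Type) [Field Ω] [Algebra ℚ Ω] (f : C.S →+* Ω),
      (∀ c, fL (f.comp A) c = fL f (γ.g c)) ∧
      ptOf (f.comp A) = ptOf f + mapF (b 0) (fL f) γ.P := by
  obtain ⟨tx, ty, ht⟩ := C.exists_trans γ.P γ.hP
  have hσ : ∀ (Ω : Type) [Field Ω] [Algebra ℚ Ω] (f : C.S →+* Ω),
      f (C.cst (γ.g (algebraMap ℚ L (b 0)))) = algebraMap ℚ Ω (b 0) := by
    intro Ω _ _ f
    rw [AlgEquiv.commutes]
    exact (fL f).commutes (b 0)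
  have hne : ∀ (Ω : Type) [Field Ω] [Algebra ℚ Ω] (f : C.S →+* Ω),
      ptOf f + mapF (b 0) (fL f) γ.P ≠ 0 := by
    intro Ω _ _ f h
    apply C.trans_down (ptOf f) (ptOf_down f) (fL f) γ.hP
    rw [h, down_zero C.tower]
  have h1 : ty ^ 2 = tx ^ 3 +
      (C.cst.comp (γ.g : L →+* L)) (algebraMap ℚ L (b 0)) * tx := by
    apply C.joint
    intro f _
    have h2 := onCurve_xy (b 0) (hne _ f)
    rw [OnCurve, ← (ht _ f).1, ← (ht _ f).2] at h2
    rw [map_pow, map_add, map_mul, map_pow, h2]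
    congr 2
    exact (hσ _ f).symm
  have h2 : IsUnit (C.psi.eval₂ (C.cst.comp (γ.g : L →+* L)) tx) := by
    apply C.isUnit_of
    intro Ω _ _ f hf
    rw [Polynomial.hom_eval₂, (ht _ f).1, C.psi_eval, Finset.prod_eq_zero_iff] at hf
    obtain ⟨Q, hQ, hQ'⟩ := hf
    rw [mem_kerSet] at hQ
    have h3 : xc (b 0) (ptOf f + mapF (b 0) (fL f) γ.P) =
        xc (b 0) (mapF (b 0) ((fL f).comp (γ.g : L →ₐ[ℚ] L)) Q) := by
      rw [xc_mapF]
      exact sub_eq_zero.1 hQ'
    have h4 : downF b Ω d (mapF (b 0) ((fL f).comp (γ.g : L →ₐ[ℚ] L)) Q) = 0 := by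
      rw [down_mapF C.tower, hQ.2, mapF_zero]
    apply C.trans_down (ptOf f) (ptOf_down f) (fL f) γ.hP
    rcases eq_or_neg C.tower.ne (hne _ f) (mapF_ne_zero.2 hQ.1) h3 with h5 | h5
    · rw [h5, h4]
    · rw [h5, down_neg C.tower, h4, neg_zero]
  refine ⟨liftS L (algebraMap ℚ L (b 0)) C.psi (C.cst.comp (γ.g : L →+* L)) tx ty h1 h2, ?_⟩
  intro Ω _ _ f
  constructor
  · intro c
    rw [fL_apply, RingHom.comp_apply]
    exact congrArg f (liftS_C ..)
  · have h3 : ptOf (f.comp (liftS L (algebraMap ℚ L (b 0)) C.psi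
        (C.cst.comp (γ.g : L →+* L)) tx ty h1 h2)) = BB37.mk (b 0) (f tx) (f ty) := by
      rw [ptOf, RingHom.comp_apply, RingHom.comp_apply]
      congr 1
      · exact congrArg f (liftS_sx ..)
      · exact congrArg f (liftS_sy ..)
    rw [h3, (ht _ f).1, (ht _ f).2, mk_xy _ (hne _ f)]

/-- the action -/
noncomputable def act (γ : Gam C) : C.S →+* C.S := (exists_act γ).choose

section

variable {Ω : Type} [Field Ω] [Algebra ℚ Ω] (f : C.S →+* Ω) (γ : Gam C)

theorem fL_act (c : L) : fL (f.comp (act γ)) c = fL f (γ.g c) :=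
  ((exists_act γ).choose_spec Ω f).1 c

theorem ptOf_act : ptOf (f.comp (act γ)) = ptOf f + mapF (b 0) (fL f) γ.P :=
  ((exists_act γ).choose_spec Ω f).2

theorem fL_act' : fL (f.comp (act γ)) = (fL f).comp (γ.g : L →ₐ[ℚ] L) := by
  ext c
  exact fL_act f γ c

end

theorem act_mul (γ δ : Gam C) : act (γ * δ) = (act γ).comp (act δ) := by
  ext F
  apply C.joint
  intro f _
  have h : f.comp (act (γ * δ)) = (f.comp (act γ)).comp (act δ) := by
    apply hom_ext
    · intro c
      rw [fL_act, fL_act, fL_act]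
      rfl
    · rw [ptOf_act, ptOf_act, ptOf_act, fL_act', mul_P, mapF_add, mapF_mapF, add_assoc]
  exact congrArg (fun k => k F) h

theorem act_one : act (1 : Gam C) = RingHom.id C.S := by
  ext F
  apply C.joint
  intro f _
  have h : f.comp (act (1 : Gam C)) = f := by
    apply hom_ext
    · intro c
      rw [fL_act]
      rfl
    · rw [ptOf_act, one_P, mapF_zero, add_zero]
  exact congrArg (fun k => k F) h

noncomputable instance : MulSemiringAction (Gam C) C.S where
  smul γ s := act γ s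
  one_smul s := by
    change act 1 s = s
    rw [act_one]
    rfl
  mul_smul γ δ s := by
    change act (γ * δ) s = act γ (act δ s)
    rw [act_mul]
    rfl
  smul_zero γ := map_zero _
  smul_add γ := map_add _
  smul_one γ := map_one _
  smul_mul γ := map_mul _

theorem smul_def (γ : Gam C) (s : C.S) : γ • s = act γ s := rfl

/-- the group acts freely: Galois coordinates through `coords_of_separate` -/
theorem separate (γ : Gam C) (hγ : γ ≠ 1) :
    Ideal.span (Set.range fun s : C.S => s - γ • s) = ⊤ := by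
  apply C.ideal_top
  intro Ω _ _ f
  by_contra hc
  push Not at hc
  have h : f.comp (act γ) = f := by
    ext s
    have := hc (s - γ • s) (Ideal.subset_span ⟨s, rfl⟩)
    rw [map_sub, sub_eq_zero] at this
    exact this.symm
  apply hγ
  apply Gam.ext
  · have h1 := ptOf_act f γ
    rw [h] at h1
    exact (mapF_eq_zero (fL f)).1 (left_eq_add.1 h1)
  · ext c
    have h2 := fL_act f γ c
    rw [h] at h2
    exact ((fL f).toRingHom.injective h2).symm

end Ctx

end BB37
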