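import Pool.Agent.Lib.MP_bb37eb_nt.EC.Azumaya0

/-! The Azumaya algebra of `xi` on the affine curve: see `EC_azumaya` and `EC_azumaya0`. -/
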