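import Pool.Agent.Lib.MP_bb37eb_nt.EC.Base

/-! Invariants of the group are the functions on the bottom curve. -/

namespace BB37

open Polynomial

/-- a polynomial with Galois invariant coefficients is rational -/
theorem poly_fixed (p : (Kb ℚ)[X]) (h : ∀ G : GK ℚ, p.map (G : Kb ℚ →+* Kb ℚ) = p) :
    ∃ p₀ : ℚ[X], p₀.map (algebraMap ℚ (Kb ℚ)) = p := by
  have h1 : p ∈ Polynomial.lifts (algebraMap ℚ (Kb ℚ)) := by
    rw [Polynomial.lifts_iff_coeff_lifts]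
    intro n
    rw [InfiniteGalois.mem_range_algebraMap_iff_fixed]
    intro G
    have := congrArg (fun r => r.coeff n) (h G)
    simp only [coeff_map] at this
    exact this
  exact (Polynomial.mem_lifts p).1 h1

theorem eval_map_gal (p : (Kb ℚ)[X]) (G : GK ℚ) (u : Kb ℚ) :
    (p.map (G : Kb ℚ →+* Kb ℚ)).eval (G u) = G (p.eval u) := by
  rw [eval_map]
  exact eval₂_at_apply (G : Kb ℚ →+* Kb ℚ) u

namespace Ctx

variable {b : ℕ → ℚ} {d : ℕ} {L : Type} [Field L] [Algebra ℚ L] (C : Ctx b d L)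

/-- evaluation at a point over `Qbar` outside the kernel -/
noncomputable def ev (a : Pt (b 0) (Kb ℚ)) (ha : downF b (Kb ℚ) d a ≠ 0) : C.S →+* Kb ℚ :=
  (exists_hom C C.ι a ha).choose

theorem fL_ev (a : Pt (b 0) (Kb ℚ)) (ha : downF b (Kb ℚ) d a ≠ 0) (c : L) :
    fL (C.ev a ha) c = C.ι c := (exists_hom C C.ι a ha).choose_spec.1 c

theorem fL_ev' (a : Pt (b 0) (Kb ℚ)) (ha : downF b (Kb ℚ) d a ≠ 0) :
    fL (C.ev a ha) = C.ι := AlgHom.ext (C.fL_ev a ha)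

theorem ptOf_ev (a : Pt (b 0) (Kb ℚ)) (ha : downF b (Kb ℚ) d a ≠ 0) :
    ptOf (C.ev a ha) = a := (exists_hom C C.ι a ha).choose_spec.2

/-- translation invariance -/
theorem ev_trans (F : C.S) (hF : ∀ γ : Gam C, γ • F = F) (a : Pt (b 0) (Kb ℚ))
    (ha : downF b (Kb ℚ) d a ≠ 0) (P : Pt (b 0) L) (hP : downF b L d P = 0)
    (ha' : downF b (Kb ℚ) d (a + mapF (b 0) C.ι P) ≠ 0) :
    C.ev (a + mapF (b 0) C.ι P) ha' F = C.ev a ha F := by
  have h : C.ev (a + mapF (b 0) C.ι P) ha' = (C.ev a ha).comp (act (⟨P, 1, hP⟩ : Gam C)) := by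
    apply hom_ext
    · intro c
      rw [fL_ev, fL_act, fL_ev]
      rfl
    · rw [ptOf_ev, ptOf_act, ptOf_ev, fL_ev']
  rw [h, RingHom.comp_apply]
  congr 1
  exact hF ⟨P, 1, hP⟩

/-- Galois equivariance -/
theorem ev_gal (F : C.S) (hF : ∀ γ : Gam C, γ • F = F) (a : Pt (b 0) (Kb ℚ))
    (ha : downF b (Kb ℚ) d a ≠ 0) (G : GK ℚ)
    (ha' : downF b (Kb ℚ) d (gact ℚ (b 0) G a) ≠ 0) :
    C.ev (gact ℚ (b 0) G a) ha' F = G (C.ev a ha F) := by
  have := C.nor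
  let γ : Gam C := ⟨0, rst C.ι G, down_zero C.tower d⟩
  have h : (C.ev (gact ℚ (b 0) G a) ha').comp (act γ) =
      (G : Kb ℚ →+* Kb ℚ).comp (C.ev a ha) := by
    apply hom_ext
    · intro c
      rw [fL_act, fL_ev, rst_apply]
      exact congrArg G (C.fL_ev a ha c).symm
    · rw [ptOf_act, ptOf_ev]
      change _ + mapF (b 0) _ 0 = _
      rw [mapF_zero, add_zero]
      have h1 : ptOf ((G : Kb ℚ →+* Kb ℚ).comp (C.ev a ha)) =
          gact ℚ (b 0) G (ptOf (C.ev a ha)) := by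
        rw [gact, ptOf, ptOf, mapF_mk C.tower.ne _ (onCurve_f _)]
        rfl
      rw [h1, ptOf_ev]
  have h2 := congrArg (fun k => k F) h
  simp only [RingHom.comp_apply] at h2
  have h3 : act γ F = F := hF γ
  rw [h3] at h2
  exact h2

theorem ev_congr {a a' : Pt (b 0) (Kb ℚ)} (h : a = a') (ha : downF b (Kb ℚ) d a ≠ 0)
    (ha' : downF b (Kb ℚ) d a' ≠ 0) : C.ev a ha = C.ev a' ha' := by
  subst h
  rfl

/-- the invariants are the functions on the bottom curve -/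
theorem invar (F : C.S) (hF : ∀ γ : Gam C, γ • F = F) : ∃ r, C.toS r = F := by
  classical
  obtain ⟨n, p, q, hn⟩ := SR_normal L (algebraMap ℚ L (b 0)) C.psi F
  let Φ : Pt (b 0) (Kb ℚ) → Kb ℚ := fun a =>
    if ha : downF b (Kb ℚ) d a ≠ 0 then C.ev a ha F else 0
  have hΦ : ∀ a (ha : downF b (Kb ℚ) d a ≠ 0), Φ a = C.ev a ha F := fun a ha => dif_pos ha
  have haev : ∀ (r : L[X]) (a : Pt (b 0) (Kb ℚ)) (ha : downF b (Kb ℚ) d a ≠ 0),
      C.ev a ha (aeval C.X0 r) = (r.map (C.ι : L →+* Kb ℚ)).eval (xc (b 0) a) := by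
    intro r a ha
    rw [aeval_def, hom_eval₂, ← xc_ptOf, ptOf_ev, eval_map]
    congr 1
    ext c
    exact C.fL_ev a ha c
  obtain ⟨p', q', hpq⟩ := inv_points C.tower d (Kb ℚ) Φ
    ((C.psi ^ n).map (C.ι : L →+* Kb ℚ)) (p.map (C.ι : L →+* Kb ℚ))
    (q.map (C.ι : L →+* Kb ℚ)) (by
      intro a ha
      rw [← haev _ a ha, map_pow, map_pow]
      apply pow_ne_zero
      have h := psi_f (C.ev a ha)
      rw [aeval_def, hom_eval₂]
      exact h) (by
      intro a ha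
      have h := congrArg (C.ev a ha) hn
      rw [map_mul, map_add, map_mul, ← map_pow] at h
      rw [haev _ a ha, haev _ a ha, haev _ a ha, ← yc_ptOf, ptOf_ev] at h
      rw [hΦ a ha]
      exact h) (by
      intro a P₀ ha hP₀
      obtain ⟨P, hP, rfl⟩ := C.ker_points C.ι P₀ hP₀
      have ha' : downF b (Kb ℚ) d (a + mapF (b 0) C.ι P) ≠ 0 :=
        C.trans_down a ha C.ι hP
      rw [hΦ _ ha', hΦ _ ha]
      exact C.ev_trans F hF a ha P hP ha')
  have hgal : ∀ G : GK ℚ, p'.map (G : Kb ℚ →+* Kb ℚ) = p' ∧ q'.map (G : Kb ℚ →+* Kb ℚ) = q' := by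
    intro G
    have key : ∀ e : Pt (b d) (Kb ℚ), e ≠ 0 →
        (p'.map (G : Kb ℚ →+* Kb ℚ) - p').eval (xc (b d) e) +
          (q'.map (G : Kb ℚ →+* Kb ℚ) - q').eval (xc (b d) e) * yc (b d) e = 0 := by
      intro e he
      obtain ⟨a, ha⟩ := down_surj C.tower d (gact ℚ (b d) G⁻¹ e)
      have ha0 : downF b (Kb ℚ) d a ≠ 0 := by
        rw [ha]
        exact mapF_ne_zero.2 he
      have hGa : downF b (Kb ℚ) d (gact ℚ (b 0) G a) = e := by
        rw [down_gact C.tower, ha, ← gact_mul, mul_inv_cancel, gact_one]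
      have hGa0 : downF b (Kb ℚ) d (gact ℚ (b 0) G a) ≠ 0 := by rwa [hGa]
      have h1 := hpq (gact ℚ (b 0) G a) hGa0
      rw [hΦ _ hGa0, C.ev_gal F hF a ha0 G hGa0, ← hΦ a ha0, hpq a ha0, hGa, map_add, map_mul,
        ← eval_map_gal, ← eval_map_gal, ← xc_gact, ← yc_gact, ha, ← gact_mul, mul_inv_cancel,
        gact_one] at h1
      rw [eval_sub, eval_sub]
      linear_combination h1
    obtain ⟨h1, h2⟩ := pq_unique (C.tower.ne' d) (Kb ℚ) _ _ key
    exact ⟨sub_eq_zero.1 h1, sub_eq_zero.1 h2⟩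
  obtain ⟨p₀, hp₀⟩ := poly_fixed p' fun G => (hgal G).1
  obtain ⟨q₀, hq₀⟩ := poly_fixed q' fun G => (hgal G).2
  refine ⟨aeval (crX (b d)) p₀ + aeval (crX (b d)) q₀ * crY (b d), ?_⟩
  apply C.joint
  intro f hf
  have hf0 := ptOf_down f
  have h1 : f = C.ev (ptOf f) hf0 := by
    apply hom_ext
    · intro c
      rw [hf, fL_ev]
    · rw [ptOf_ev]
  rw [f_toS, hp₀, hq₀, ← hpq _ hf0, hΦ _ hf0, ← h1]

end Ctx

end BB37
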