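import Pool.Agent.Lib.MP_bb37eb_nt.EC.Coc
import Pool.Agent.Lib.MP_bb37eb_nt.EC.Invar
import Pool.Agent.Lib.MP_bb37eb_nt.DE.Rat
import Pool.Agent.Lib.MP_bb37eb_nt.BR.Galois
import Pool.Agent.Lib.MP_bb37eb_nt.BR.Coords

/-! The Azumaya algebra of `xi` and of a constant cocycle on the affine curve. -/

namespace BB37

open scoped TensorProduct

section

variable {b : ℕ → ℚ} {d : ℕ} {ξ : Xi b d} {c₀ : Z2 ℚ} {L : Type} [Field L] [Algebra ℚ L]

theorem ptOf_comp {C : Ctx b d L} {Ω : Type} [Field Ω] [Algebra ℚ Ω] {Ω' : Type} [Field Ω']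
    [Algebra ℚ Ω'] (f : C.S →+* Ω) (g : Ω →ₐ[ℚ] Ω') :
    Ctx.ptOf ((g : Ω →+* Ω').comp f) = mapF (b 0) g (Ctx.ptOf f) := by
  rw [Ctx.ptOf, Ctx.ptOf, mapF_mk C.tower.ne _ (Ctx.onCurve_f _)]
  rfl

/-- a point over `Kbar` over a rational point of the bottom curve gives the data for the twisted
form -/
theorem fibre_data (C : XCtx ξ c₀ L) (K : Type) [Field K] [CharZero K] (θ : CR (b d) →+* K)
    (c : Z2 K) (hα : IsAlpha ξ K (mk (b d) (θ (crX (b d))) (θ (crY (b d)))) c) :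
    ∃ (s : C.S →+* Kb K) (γ : GK K →* Gam C.toCtx),
      (∀ r, s (C.toS r) = algebraMap K (Kb K) (θ r)) ∧
      (∀ (g : GK K) x, g (s x) = s (γ g • x)) ∧
      ∀ g h, ((c * resZ ℚ K c₀).1 (g, h) : Kb K) = s (C.cS (γ g) (γ h)) := by
  have hnor := C.nor
  obtain ⟨a, ν, ha, hν, hc⟩ := hα
  have hcurve : OnCurve (b d) K (θ (crX (b d))) (θ (crY (b d))) := by
    have h := congrArg θ (cr_eq (b d))
    rw [map_pow, map_add, map_mul, map_pow] at h
    rw [OnCurve, h]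
    congr 2
    exact congrArg (fun k : ℚ →+* K => k (b d))
      (Subsingleton.elim (θ.comp (algebraMap ℚ (CR (b d)))) (algebraMap ℚ K))
  have hane : downF b (Kb K) d a ≠ 0 := by
    rw [ha]
    exact mapF_ne_zero.2 (mk_ne_zero _ (C.tower.ne' d) hcurve)
  obtain ⟨s, hs1, hs2⟩ := Ctx.exists_hom C.toCtx ((emb ℚ K).comp C.ι) a hane
  have hν' : ∀ g, ∃ P : Pt (b 0) L, downF b L d P = 0 ∧ mapF (b 0) C.ι P = ν g :=
    fun g => C.ker_points C.ι (ν g) (hν g).1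
  choose ν' h1 h2 using hν'
  have hmul : ∀ g h, ν' (g * h) = ν' g + mapF (b 0)
      ((rst C.ι (resG ℚ K g) : L ≃ₐ[ℚ] L) : L →ₐ[ℚ] L) (ν' h) := by
    intro g h
    apply mapF_inj C.ι
    apply mapF_inj (emb ℚ K)
    have e1 : mapF (b 0) C.ι (mapF (b 0)
        ((rst C.ι (resG ℚ K g) : L ≃ₐ[ℚ] L) : L →ₐ[ℚ] L) (ν' h)) =
        gact ℚ (b 0) (resG ℚ K g) (ν h) := by
      rw [← h2, gact, mapF_mapF, mapF_mapF]
      congr 1
      ext x
      exact rst_apply C.ι (resG ℚ K g) x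
    rw [mapF_add, mapF_add, e1, h2, h2, (hν _).2, mapF_emb_gact, (hν _).2, (hν _).2, gact_mul,
      gact_sub]
    abel
  let γ : GK K →* Gam C.toCtx := MonoidHom.mk' (fun g => ⟨ν' g, rst C.ι (resG ℚ K g), h1 g⟩) (by
    intro g h
    apply Gam.ext
    · exact hmul g h
    · change rst C.ι (resG ℚ K (g * h)) = rst C.ι (resG ℚ K g) * rst C.ι (resG ℚ K h)
      rw [map_mul, rst_mul])
  have hfL : Ctx.fL s = (emb ℚ K).comp C.ι := AlgHom.ext hs1
  refine ⟨s, γ, ?_, ?_, ?_⟩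
  · have h : s.comp C.toS = (algebraMap K (Kb K)).comp θ := by
      apply cr_hom_ext
      · rw [RingHom.comp_apply, RingHom.comp_apply, Ctx.toS_X, Ctx.f_Xd, hs2, ha, xc_mapF,
          xc_mk _ (C.tower.ne' d) hcurve]
        rfl
      · rw [RingHom.comp_apply, RingHom.comp_apply, Ctx.toS_Y, Ctx.f_Yd, hs2, ha, yc_mapF,
          yc_mk _ (C.tower.ne' d) hcurve]
        rfl
    exact fun r => congrArg (fun k => k r) h
  · intro g
    have h : ((((g : Kb K →ₐ[K] Kb K).restrictScalars ℚ : Kb K →ₐ[ℚ] Kb K) :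
        Kb K →+* Kb K)).comp s = s.comp (Ctx.act (γ g)) := by
      apply Ctx.hom_ext
      · intro c
        rw [Ctx.fL_act, hs1]
        change g (Ctx.fL s c) = emb ℚ K (C.ι (rst C.ι (resG ℚ K g) c))
        rw [hs1, rst_apply, emb_resG]
        rfl
      · rw [ptOf_comp, Ctx.ptOf_act, hs2, hfL]
        change gact K (b 0) g a = a + mapF (b 0) ((emb ℚ K).comp C.ι) (ν' g)
        rw [← mapF_mapF, h2, (hν g).2, add_sub_cancel]
    exact fun x => congrArg (fun k => k x) h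
  · intro g h
    have e0 : s (C.cS (γ g) (γ h)) = emb ℚ K (C.ι (C.cL (γ g) (γ h))) *
        emb ℚ K (C.ι (C.c0L (γ g).g (γ h).g)) := by
      rw [← map_mul, ← map_mul]
      exact hs1 _
    have hl : ∀ g, ∀ x, lft C.ι (γ g).g (C.ι x) = resG ℚ K g (C.ι x) := by
      intro g x
      rw [lft_apply]
      exact rst_apply C.ι (resG ℚ K g) x
    have e1 : ξ.f (lft C.ι (γ g).g) = ξ.f (resG ℚ K g) := C.inf _ _ (hl g)
    have e2 : gact ℚ (b 0) (lft C.ι (γ g).g) (mapF (b 0) C.ι (γ h).P) =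
        gact ℚ (b 0) (resG ℚ K g) (ν h) := by
      rw [← h2, gact, gact, mapF_mapF, mapF_mapF]
      congr 1
      ext x
      exact hl g x
    have e3 : C.ι (C.c0L (γ g).g (γ h).g) = (c₀.1 (resG ℚ K g, resG ℚ K h) : Kb ℚ) := by
      rw [XCtx.ι_c0L, C.inf₂ _ _ _ _ (hl g) (hl h)]
    rw [e0, XCtx.ι_cL, e1, e2, e3]
    change ((c.1 (g, h) * embU ℚ K (c₀.1 (resG ℚ K g, resG ℚ K h)) : (Kb K)ˣ) : Kb K) = _
    rw [hc, Units.val_mul]
    rfl

end

/-- the Azumaya algebra of `xi` and of a constant cocycle on the affine curve -/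
theorem EC_azumaya1 {b : ℕ → ℚ} (hb : Tower b) {d : ℕ} (ξ : Xi b d) (c₀ : Z2 ℚ) :
    ∃ (A : Type) (_ : Ring A) (_ : Algebra (CR (b d)) A), IsAzumaya (CR (b d)) A ∧
    ∀ (K : Type) [Field K] [CharZero K] (θ : CR (b d) →+* K) (c : Z2 K)
      (_ : IsAlpha ξ K (mk (b d) (θ (crX (b d))) (θ (crY (b d)))) c),
      letI := θ.toAlgebra
      HasClass K (K ⊗[CR (b d)] A) (c * resZ ℚ K c₀) := by
  classical
  obtain ⟨L, _, _, ⟨C⟩⟩ := exists_ctx hb ξ c₀
  have hfin : Finite (Gam C.toCtx) := Ctx.finite_gam C.toCtx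
  let _ : Fintype (Gam C.toCtx) := Fintype.ofFinite _
  let _ : Algebra (CR (b d)) C.S := C.toS.toAlgebra
  have hcomm : SMulCommClass (Gam C.toCtx) (CR (b d)) C.S := by
    refine ⟨fun γ r s => ?_⟩
    rw [Algebra.smul_def, Algebra.smul_def, Ctx.smul_def, Ctx.smul_def, map_mul]
    congr 1
    exact congrArg (fun k => k r) (Ctx.act_toS γ)
  obtain ⟨A, iA, jA, hA, h⟩ := BR_galois (CR (b d)) C.S (Gam C.toCtx) C.toS_inj C.invar
    (coords_of_separate C.S (Gam C.toCtx) Ctx.separate) C.cS C.cS_coc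
  refine ⟨A, iA, jA, hA, ?_⟩
  intro K _ _ θ c hα
  let _ : Algebra (CR (b d)) K := θ.toAlgebra
  obtain ⟨s, γ, h1, h2, h3⟩ := fibre_data C K θ c hα
  exact h K s h1 γ h2 _ h3

/-- the Azumaya algebra of `xi` and of a constant cocycle on the affine curve -/
theorem EC_azumaya0 {b : ℕ → ℚ} (hb : Tower b) {d : ℕ} (ξ : Xi b d) (c₀ : Z2 ℚ) :
    ∃ (A : Type) (_ : Ring A) (_ : Algebra (Wq (b d)).toAffine.CoordinateRing A),
    IsAzumaya (Wq (b d)).toAffine.CoordinateRing A ∧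
    ∀ (K : Type) [Field K] [CharZero K] (θ : (Wq (b d)).toAffine.CoordinateRing →+* K) (x y : K)
      (_ : θ (WeierstrassCurve.Affine.CoordinateRing.mk _ (Polynomial.C Polynomial.X)) = x)
      (_ : θ (WeierstrassCurve.Affine.CoordinateRing.mk _ Polynomial.X) = y)
      (c : Z2 K) (_ : IsAlpha ξ K (mk (b d) x y) c),
      letI := θ.toAlgebra
      HasClass K (K ⊗[(Wq (b d)).toAffine.CoordinateRing] A) (c * resZ ℚ K c₀) := by
  obtain ⟨A, iA, jA, hA, h⟩ := EC_azumaya1 hb ξ c₀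
  refine ⟨A, iA, jA, hA, ?_⟩
  rintro K _ _ θ x y rfl rfl c hα
  exact h K θ c hα

/-- the form in the spine -/
theorem EC_azumaya (b : ℕ → ℚ) (hb0 : b 0 ≠ 0) (hb : ∀ d, b (d + 1) = -4 * b d) (d : ℕ)
    (ξ : Xi b d) : ∃ (A : Type) (_ : Ring A) (_ : Algebra (Wq (b d)).toAffine.CoordinateRing A),
    IsAzumaya (Wq (b d)).toAffine.CoordinateRing A ∧
    ∀ (K : Type) [Field K] [CharZero K] (θ : (Wq (b d)).toAffine.CoordinateRing →+* K) (x y : K)
      (_ : θ (WeierstrassCurve.Affine.CoordinateRing.mk _ (Polynomial.C Polynomial.X)) = x)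
      (_ : θ (WeierstrassCurve.Affine.CoordinateRing.mk _ Polynomial.X) = y)
      (c : Z2 K) (_ : IsAlpha ξ K (mk (b d) x y) c),
      letI := θ.toAlgebra
      HasClass K (K ⊗[(Wq (b d)).toAffine.CoordinateRing] A) c := by
  obtain ⟨A, iA, jA, hA, h⟩ := EC_azumaya0 ⟨hb0, hb⟩ ξ 1
  refine ⟨A, iA, jA, hA, ?_⟩
  intro K _ _ θ x y hx hy c hα
  have := h K θ x y hx hy c hα
  rwa [map_one, mul_one] at this

end BB37
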