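import Pool.Agent.Lib.MP_bb37eb_nt.EC.Basic

/-! Mathlib's coordinate ring of `y^2 = x^3 + b x`. -/

namespace BB37

open Polynomial WeierstrassCurve

/-- the coordinate ring of the affine curve -/
abbrev CR (b : ℚ) : Type := (Wq b).toAffine.CoordinateRing

section

variable (b : ℚ)

/-- the coordinate `x` -/
noncomputable def crX : CR b :=
  WeierstrassCurve.Affine.CoordinateRing.mk (Wq b).toAffine (Polynomial.C Polynomial.X)

/-- the coordinate `y` -/
noncomputable def crY : CR b :=
  WeierstrassCurve.Affine.CoordinateRing.mk (Wq b).toAffine Polynomial.X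

variable {A : Type} [CommRing A] (i : ℚ →+* A) (x y : A) (h : y ^ 2 = x ^ 3 + i b * x)

/-- the universal property -/
noncomputable def crLift : CR b →+* A :=
  AdjoinRoot.lift (eval₂RingHom i x) y (by
    rw [WeierstrassCurve.Affine.polynomial]
    simp only [Wq, map_zero, zero_mul, add_zero, eval₂_sub, eval₂_add, eval₂_mul, eval₂_pow,
      eval₂_X, eval₂_C, coe_eval₂RingHom]
    rw [h, sub_self])

theorem crLift_X : crLift b i x y h (crX b) = x := by
  rw [crX, crLift]
  refine (AdjoinRoot.lift_mk ..).trans ?_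
  rw [eval₂_C, coe_eval₂RingHom, eval₂_X]

theorem crLift_Y : crLift b i x y h (crY b) = y := by
  rw [crY, crLift]
  refine (AdjoinRoot.lift_mk ..).trans ?_
  rw [eval₂_X]

theorem cr_eq : crY b ^ 2 = crX b ^ 3 + algebraMap ℚ (CR b) b * crX b := by
  have h : WeierstrassCurve.Affine.CoordinateRing.mk (Wq b).toAffine
      (X ^ 2 + C (C (0 : ℚ) * X + C 0) * X - C (X ^ 3 + C (0 : ℚ) * X ^ 2 + C b * X + C 0)) = 0 :=
    AdjoinRoot.mk_self
  simp only [map_zero, zero_mul, add_zero, map_sub, map_add, map_mul, map_pow] at h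
  exact sub_eq_zero.1 h

variable {b}

theorem cr_hom_ext {f g : CR b →+* A} (hx : f (crX b) = g (crX b)) (hy : f (crY b) = g (crY b)) :
    f = g := by
  apply Ideal.Quotient.ringHom_ext
  apply Polynomial.ringHom_ext'
  · apply Polynomial.ringHom_ext'
    · exact Subsingleton.elim _ _
    · exact hx
  · exact hy

theorem cr_form (r : CR b) : ∃ p q : ℚ[X], r = aeval (crX b) p + aeval (crX b) q * crY b := by
  obtain ⟨p, q, h⟩ := WeierstrassCurve.Affine.CoordinateRing.exists_smul_basis_eq r
  have key : ∀ p : ℚ[X], WeierstrassCurve.Affine.CoordinateRing.mk (Wq b).toAffine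
      (Polynomial.C p) = aeval (crX b) p := by
    intro p
    have h1 : ((WeierstrassCurve.Affine.CoordinateRing.mk (Wq b).toAffine).comp
        (Polynomial.C : ℚ[X] →+* ℚ[X][X])) = (aeval (crX b) : ℚ[X] →ₐ[ℚ] CR b).toRingHom := by
      apply Polynomial.ringHom_ext'
      · exact Subsingleton.elim _ _
      · change _ = aeval (crX b) X
        rw [aeval_X]
        rfl
    exact congrArg (fun k => k p) h1
  refine ⟨p, q, ?_⟩
  rw [← h, WeierstrassCurve.Affine.CoordinateRing.smul,
    WeierstrassCurve.Affine.CoordinateRing.smul, mul_one, key, key]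
  rfl

end

end BB37
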