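import Pool.Agent.Lib.MP_bb37eb_nt.EC.Ker

/-! Invariants of the kernel of a tower, on points: the induction, from the one step statement. -/

namespace BB37

/-- Functions on the top curve which are invariant under the kernel come from the bottom; the one
step statement `inv_step` is taken as the hypothesis `hstep`. -/
theorem inv_points_of (Ω : Type) [Field Ω] [Algebra ℚ Ω] [IsAlgClosed Ω]
    (hstep : ∀ (b b' : ℚ), b ≠ 0 → b' = -4 * b → ∀ D p q : Polynomial Ω,
      ∃ D₁ p₁ q₁ : Polynomial Ω, ∀ a : Pt b Ω, xc b a ≠ 0 →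
        D₁.eval (xc b' (isoF b b' a)) = 2 * (D.eval (xc b a) * D.eval (xc b (a + T b))) ∧
        p₁.eval (xc b' (isoF b b' a)) + q₁.eval (xc b' (isoF b b' a)) * yc b' (isoF b b' a) =
          (p.eval (xc b a) + q.eval (xc b a) * yc b a) * D.eval (xc b (a + T b)) +
          (p.eval (xc b (a + T b)) + q.eval (xc b (a + T b)) * yc b (a + T b)) *
            D.eval (xc b a))
    {b : ℕ → ℚ} (hb : Tower b) (d : ℕ) (Φ : Pt (b 0) Ω → Ω) (D p q : Polynomial Ω)
    (H1 : ∀ a, downF b Ω d a ≠ 0 → D.eval (xc _ a) ≠ 0)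
    (H2 : ∀ a, downF b Ω d a ≠ 0 →
      D.eval (xc _ a) * Φ a = p.eval (xc _ a) + q.eval (xc _ a) * yc _ a)
    (H3 : ∀ a P, downF b Ω d a ≠ 0 → downF b Ω d P = 0 → Φ (a + P) = Φ a) :
    ∃ p' q' : Polynomial Ω, ∀ a, downF b Ω d a ≠ 0 →
      Φ a = p'.eval (xc (b d) (downF b Ω d a)) +
        q'.eval (xc (b d) (downF b Ω d a)) * yc (b d) (downF b Ω d a) := by
  have := charZero_of_algebra Ω
  induction d generalizing b D p q with
  | zero =>
    have hD : ∀ u : Ω, D.eval u ≠ 0 := by
      intro u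
      obtain ⟨v, hv⟩ := IsAlgClosed.exists_pow_nat_eq (u ^ 3 + algebraMap ℚ Ω (b 0) * u) (n := 2)
        (by norm_num)
      have hc : OnCurve (b 0) Ω u v := hv
      have h1 : downF b Ω 0 (mk (b 0) u v) ≠ 0 := mk_ne_zero (b 0) hb.ne hc
      have h2 := H1 _ h1
      rwa [xc_mk (b 0) hb.ne hc] at h2
    have hdeg : D.degree = 0 := by
      by_contra hne
      obtain ⟨z, hz⟩ := IsAlgClosed.exists_root D hne
      exact hD z hz
    obtain ⟨c, hc⟩ : ∃ c, D = Polynomial.C c := ⟨_, Polynomial.eq_C_of_degree_eq_zero hdeg⟩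
    have hc0 : c ≠ 0 := by
      have := hD 0
      rwa [hc, Polynomial.eval_C] at this
    refine ⟨Polynomial.C c⁻¹ * p, Polynomial.C c⁻¹ * q, fun a ha => ?_⟩
    have h2 := H2 a ha
    rw [hc, Polynomial.eval_C] at h2
    have h3 : downF b Ω 0 a = a := rfl
    rw [h3, Polynomial.eval_mul, Polynomial.eval_mul, Polynomial.eval_C]
    field_simp
    linear_combination h2
  | succ d ih =>
    have hb0 := hb.ne
    have hb1 : b 1 = -4 * b 0 := hb.step 0
    have hsh := hb.shift
    have hds : ∀ a : Pt (b 0) Ω, downF b Ω (d + 1) a =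
        downF (fun j => b (j + 1)) Ω d (isoF (b 0) (b 1) a) := fun a => down_shift b Ω d a
    choose pre hpre using fun A : Pt (b 1) Ω => iso_surj hb0 hb1 A
    -- the value does not depend on the preimage
    have key : ∀ a : Pt (b 0) Ω, downF b Ω (d + 1) a ≠ 0 →
        Φ (pre (isoF (b 0) (b 1) a)) = Φ a := by
      intro a ha
      have h1 : isoF (b 0) (b 1) (pre (isoF (b 0) (b 1) a) - a) = 0 := by
        rw [sub_eq_add_neg, iso_add hb0 hb1, iso_neg hb0 hb1, hpre, add_neg_cancel]
      have h2 : downF b Ω (d + 1) (pre (isoF (b 0) (b 1) a) - a) = 0 := by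
        rw [hds, h1]
        exact down_zero hsh d
      have h3 := H3 a _ ha h2
      rwa [add_sub_cancel] at h3
    have hx : ∀ a : Pt (b 0) Ω, downF b Ω (d + 1) a ≠ 0 → xc (b 0) a ≠ 0 := by
      intro a ha hx
      apply ha
      have h1 : isoF (b 0) (b 1) a = 0 := by rw [isoF, if_pos hx]
      rw [hds, h1]
      exact down_zero hsh d
    have hT : ∀ a : Pt (b 0) Ω, downF b Ω (d + 1) (a + T (b 0)) = downF b Ω (d + 1) a := by
      intro a
      rw [hds, iso_add_T hb0 hb1, ← hds]
    have hTker : downF b Ω (d + 1) (T (b 0)) = 0 := by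
      rw [hds, iso_T hb0]
      exact down_zero hsh d
    obtain ⟨D₁, p₁, q₁, hs⟩ := hstep (b 0) (b 1) hb0 hb1 D p q
    obtain ⟨p', q', hpq⟩ := ih hsh (fun A => Φ (pre A)) D₁ p₁ q₁
      (by
        intro A hA
        have hA' : downF b Ω (d + 1) (pre A) ≠ 0 := by
          rw [hds, hpre]
          exact hA
        have h1 := (hs (pre A) (hx _ hA')).1
        rw [hpre] at h1
        change Polynomial.eval (xc (b 1) A) D₁ ≠ 0
        rw [h1]
        have hA'' : downF b Ω (d + 1) (pre A + T (b 0)) ≠ 0 := by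
          rw [hT]
          exact hA'
        exact mul_ne_zero two_ne_zero (mul_ne_zero (H1 _ hA') (H1 _ hA'')))
      (by
        intro A hA
        have hA' : downF b Ω (d + 1) (pre A) ≠ 0 := by
          rw [hds, hpre]
          exact hA
        have hA'' : downF b Ω (d + 1) (pre A + T (b 0)) ≠ 0 := by
          rw [hT]
          exact hA'
        obtain ⟨h1, h2⟩ := hs (pre A) (hx _ hA')
        rw [hpre] at h1 h2
        change Polynomial.eval (xc (b 1) A) D₁ * Φ (pre A) =
          Polynomial.eval (xc (b 1) A) p₁ + Polynomial.eval (xc (b 1) A) q₁ * yc (b 1) A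
        rw [h1, h2, ← H2 _ hA', ← H2 _ hA'', H3 _ _ hA' hTker]
        ring)
      (by
        intro A P hA hP
        have hA' : downF b Ω (d + 1) (pre A) ≠ 0 := by
          rw [hds, hpre]
          exact hA
        have hP' : downF b Ω (d + 1) (pre P) = 0 := by
          rw [hds, hpre]
          exact hP
        have h1 : isoF (b 0) (b 1) (pre A + pre P) = A + P := by
          rw [iso_add hb0 hb1, hpre, hpre]
        have h2 : downF b Ω (d + 1) (pre A + pre P) ≠ 0 := by
          rw [down_add hb, hP', add_zero]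
          exact hA'
        have h3 := key _ h2
        rw [h1] at h3
        change Φ (pre (A + P)) = Φ (pre A)
        rw [h3]
        exact H3 _ _ hA' hP')
    refine ⟨p', q', fun a ha => ?_⟩
    have h1 : downF (fun j => b (j + 1)) Ω d (isoF (b 0) (b 1) a) ≠ 0 := by
      rw [← hds]
      exact ha
    have h2 := hpq (isoF (b 0) (b 1) a) h1
    change Φ (pre (isoF (b 0) (b 1) a)) = _ at h2
    rw [key a ha] at h2
    rw [hds]
    exact h2

end BB37
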