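import Pool.Agent.Lib.MP_bb37eb_nt.EC.InvStep
import Pool.Agent.Lib.MP_bb37eb_nt.EC.InvPts

/-! Invariants of the kernel of a tower, on points. -/

namespace BB37

/-- functions on the top curve which are invariant under the kernel come from the bottom -/
theorem inv_points {b : ℕ → ℚ} (hb : Tower b) (d : ℕ) (Ω : Type) [Field Ω] [Algebra ℚ Ω]
    [IsAlgClosed Ω] (Φ : Pt (b 0) Ω → Ω) (D p q : Polynomial Ω)
    (H1 : ∀ a, downF b Ω d a ≠ 0 → D.eval (xc _ a) ≠ 0)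
    (H2 : ∀ a, downF b Ω d a ≠ 0 →
      D.eval (xc _ a) * Φ a = p.eval (xc _ a) + q.eval (xc _ a) * yc _ a)
    (H3 : ∀ a P, downF b Ω d a ≠ 0 → downF b Ω d P = 0 → Φ (a + P) = Φ a) :
    ∃ p' q' : Polynomial Ω, ∀ a, downF b Ω d a ≠ 0 →
      Φ a = p'.eval (xc (b d) (downF b Ω d a)) +
        q'.eval (xc (b d) (downF b Ω d a)) * yc (b d) (downF b Ω d a) :=
  inv_points_of Ω (fun _ _ h h' D p q => inv_step h h' D p q) hb d Φ D p q H1 H2 H3

end BB37
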