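import Pool.Agent.Lib.MP_bb37eb_nt.EC.Act
import Pool.Agent.Lib.MP_bb37eb_nt.EC.CRing
import Pool.Agent.Lib.MP_bb37eb_nt.EC.Inv

/-! The coordinate ring of the bottom curve is the ring of invariants. -/

namespace BB37

open Polynomial

namespace Ctx

variable {b : ℕ → ℚ} {d : ℕ} {L : Type} [Field L] [Algebra ℚ L] (C : Ctx b d L)

/-- the first coordinate on the bottom curve -/
noncomputable def Xd : C.S := (C.exists_down d le_rfl).choose

/-- the second coordinate on the bottom curve -/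
noncomputable def Yd : C.S := (C.exists_down d le_rfl).choose_spec.choose

section

variable {C} {Ω : Type} [Field Ω] [Algebra ℚ Ω] (f : C.S →+* Ω)

theorem f_Xd : f C.Xd = xc (b d) (downF b Ω d (ptOf f)) :=
  ((C.exists_down d le_rfl).choose_spec.choose_spec Ω f).1

theorem f_Yd : f C.Yd = yc (b d) (downF b Ω d (ptOf f)) :=
  ((C.exists_down d le_rfl).choose_spec.choose_spec Ω f).2

end

theorem d_eq : C.Yd ^ 2 = C.Xd ^ 3 + (C.cst.comp (algebraMap ℚ L)) (b d) * C.Xd := by
  apply C.joint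
  intro f _
  have h := onCurve_xy (b d) (ptOf_down f)
  rw [OnCurve, ← f_Xd, ← f_Yd] at h
  rw [map_pow, map_add, map_mul, map_pow, h]
  congr 2
  exact ((fL f).commutes (b d)).symm

/-- the map from the coordinate ring of the bottom curve -/
noncomputable def toS : CR (b d) →+* C.S :=
  crLift (b d) (C.cst.comp (algebraMap ℚ L)) C.Xd C.Yd C.d_eq

theorem toS_X : C.toS (crX (b d)) = C.Xd := crLift_X ..

theorem toS_Y : C.toS (crY (b d)) = C.Yd := crLift_Y ..

variable {C} in
theorem act_toS (γ : Gam C) : (act γ).comp C.toS = C.toS := by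
  have key : ∀ f : C.S →+* Kb ℚ, downF b (Kb ℚ) d (ptOf (f.comp (act γ))) =
      downF b (Kb ℚ) d (ptOf f) := by
    intro f
    rw [ptOf_act, down_add C.tower, down_mapF C.tower, γ.hP, mapF_zero, add_zero]
  apply cr_hom_ext
  · rw [RingHom.comp_apply, toS_X]
    apply C.joint
    intro f _
    have h := f_Xd (f.comp (act γ))
    rw [key, ← f_Xd] at h
    exact h
  · rw [RingHom.comp_apply, toS_Y]
    apply C.joint
    intro f _
    have h := f_Yd (f.comp (act γ))
    rw [key, ← f_Yd] at h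
    exact h

/-- values of the elements of the coordinate ring -/
theorem f_toS {Ω : Type} [Field Ω] [Algebra ℚ Ω] (f : C.S →+* Ω) (p q : ℚ[X]) :
    f (C.toS (aeval (crX (b d)) p + aeval (crX (b d)) q * crY (b d))) =
      (p.map (algebraMap ℚ Ω)).eval (xc (b d) (downF b Ω d (ptOf f))) +
      (q.map (algebraMap ℚ Ω)).eval (xc (b d) (downF b Ω d (ptOf f))) *
        yc (b d) (downF b Ω d (ptOf f)) := by
  have h : ∀ p : ℚ[X], f (C.toS (aeval (crX (b d)) p)) =
      (p.map (algebraMap ℚ Ω)).eval (xc (b d) (downF b Ω d (ptOf f))) := by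
    intro p
    rw [aeval_def, hom_eval₂, hom_eval₂, toS_X, f_Xd, eval_map]
    congr 1
    exact Subsingleton.elim _ _
  rw [map_add, map_add, map_mul, map_mul, h, h, toS_Y, f_Yd]

theorem map_eq_zero' {p : ℚ[X]} {Ω : Type} [Field Ω] [Algebra ℚ Ω]
    (h : p.map (algebraMap ℚ Ω) = 0) : p = 0 :=
  (Polynomial.map_eq_zero_iff (algebraMap ℚ Ω).injective).1 h

theorem toS_inj : Function.Injective C.toS := by
  rw [injective_iff_map_eq_zero]
  intro r hr
  obtain ⟨p, q, rfl⟩ := cr_form r
  have key : ∀ e : Pt (b d) (Kb ℚ), e ≠ 0 →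
      (p.map (algebraMap ℚ (Kb ℚ))).eval (xc (b d) e) +
        (q.map (algebraMap ℚ (Kb ℚ))).eval (xc (b d) e) * yc (b d) e = 0 := by
    intro e he
    obtain ⟨a, rfl⟩ := down_surj C.tower d e
    obtain ⟨f, -, hf⟩ := exists_hom C C.ι a he
    rw [← hf, ← f_toS, hr, map_zero]
  obtain ⟨h1, h2⟩ := pq_unique (C.tower.ne' d) (Kb ℚ) _ _ key
  rw [map_eq_zero' h1, map_eq_zero' h2]
  simp

end Ctx

end BB37
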