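import Pool.Agent.Lib.MP_bb37eb_nt.Core.Alpha

/-! Elementary facts on points, functoriality and the Galois action. -/

namespace BB37

open WeierstrassCurve

section

variable {b : ℚ} {K : Type} [Field K] [Algebra ℚ K] {K' : Type} [Field K'] [Algebra ℚ K']
  {K'' : Type} [Field K''] [Algebra ℚ K'']

theorem mapF_zero (f : K →ₐ[ℚ] K') : mapF b f 0 = 0 := rfl

theorem mapF_add (f : K →ₐ[ℚ] K') (P Q : Pt b K) :
    mapF b f (P + Q) = mapF b f P + mapF b f Q := by
  let _ : DecidableEq K := Classical.decEq K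
  let _ : DecidableEq K' := Classical.decEq K'
  exact (Affine.Point.map (W' := Wq b) f).map_add P Q

theorem mapF_neg (f : K →ₐ[ℚ] K') (P : Pt b K) : mapF b f (-P) = -mapF b f P := by
  let _ : DecidableEq K := Classical.decEq K
  let _ : DecidableEq K' := Classical.decEq K'
  exact (Affine.Point.map (W' := Wq b) f).map_neg P

theorem mapF_sub (f : K →ₐ[ℚ] K') (P Q : Pt b K) :
    mapF b f (P - Q) = mapF b f P - mapF b f Q := by
  rw [sub_eq_add_neg, sub_eq_add_neg, mapF_add, mapF_neg]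

theorem mapF_inj (f : K →ₐ[ℚ] K') {P Q : Pt b K} (h : mapF b f P = mapF b f Q) : P = Q := by
  let _ : DecidableEq K := Classical.decEq K
  let _ : DecidableEq K' := Classical.decEq K'
  exact Affine.Point.map_injective (W' := Wq b) f h

theorem mapF_mapF (f : K →ₐ[ℚ] K') (g : K' →ₐ[ℚ] K'') (P : Pt b K) :
    mapF b g (mapF b f P) = mapF b (g.comp f) P := by
  cases P <;> rfl

theorem mapF_id (P : Pt b K) : mapF b (AlgHom.id ℚ K) P = P := by
  cases P <;> rfl

theorem xc_mapF (f : K →ₐ[ℚ] K') (P : Pt b K) : xc b (mapF b f P) = f (xc b P) := by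
  cases P with
  | zero => exact (map_zero f).symm
  | some x y h => rfl

theorem yc_mapF (f : K →ₐ[ℚ] K') (P : Pt b K) : yc b (mapF b f P) = f (yc b P) := by
  cases P with
  | zero => exact (map_zero f).symm
  | some x y h => rfl

theorem mapF_eq_zero (f : K →ₐ[ℚ] K') {P : Pt b K} : mapF b f P = 0 ↔ P = 0 :=
  ⟨fun h => mapF_inj f (h.trans (mapF_zero f).symm), fun h => by rw [h, mapF_zero]⟩

theorem mapF_ne_zero {f : K →ₐ[ℚ] K'} {P : Pt b K} : mapF b f P ≠ 0 ↔ P ≠ 0 :=
  (mapF_eq_zero f).not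

theorem onCurve_map (f : K →ₐ[ℚ] K') {x y : K} (h : OnCurve b K x y) :
    OnCurve b K' (f x) (f y) := by
  rw [OnCurve] at h ⊢
  rw [← map_pow, h, map_add, map_mul, map_pow, AlgHom.commutes]

theorem mapF_mk (hb : b ≠ 0) (f : K →ₐ[ℚ] K') {x y : K} (h : OnCurve b K x y) :
    mapF b f (mk b x y) = mk b (f x) (f y) := by
  have h1 : mapF b f (mk b x y) ≠ 0 := fun hc => mk_ne_zero b hb h ((mapF_eq_zero f).1 hc)
  rw [← mk_xy b h1, xc_mapF, yc_mapF, xc_mk b hb h, yc_mk b hb h]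

theorem onCurve_zero : OnCurve b K 0 0 := by
  rw [OnCurve]
  ring

theorem T_ne_zero (hb : b ≠ 0) : (T b : Pt b K) ≠ 0 := mk_ne_zero b hb onCurve_zero

theorem xc_zero : xc b (0 : Pt b K) = 0 := rfl

theorem yc_zero : yc b (0 : Pt b K) = 0 := rfl

theorem xc_T (hb : b ≠ 0) : xc b (T b : Pt b K) = 0 := xc_mk b hb onCurve_zero

theorem yc_T (hb : b ≠ 0) : yc b (T b : Pt b K) = 0 := yc_mk b hb onCurve_zero

theorem mapF_T (hb : b ≠ 0) (f : K →ₐ[ℚ] K') : mapF b f (T b) = T b := by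
  rw [T, mapF_mk hb f onCurve_zero, map_zero, T]

theorem ext_xy {P Q : Pt b K} (hP : P ≠ 0) (hQ : Q ≠ 0) (hx : xc b P = xc b Q)
    (hy : yc b P = yc b Q) : P = Q := by
  rw [← mk_xy b hP, ← mk_xy b hQ, hx, hy]

/-- the points with vanishing first coordinate are `0` and `T` -/
theorem xc_eq_zero (hb : b ≠ 0) {P : Pt b K} : xc b P = 0 ↔ P = 0 ∨ P = T b := by
  constructor
  · intro h
    by_cases hP : P = 0
    · exact Or.inl hP
    right
    have h1 := onCurve_xy b hP
    rw [OnCurve, h] at h1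
    have h2 : yc b P = 0 := by
      apply pow_eq_zero_iff (two_ne_zero) |>.1
      rw [h1]
      ring
    exact ext_xy hP (T_ne_zero hb) (h.trans (xc_T hb).symm) (h2.trans (yc_T hb).symm)
  · rintro (h | h)
    · rw [h]
      rfl
    · rw [h, xc_T hb]

theorem charZero_of_algebra (K : Type) [Field K] [Algebra ℚ K] : CharZero K :=
  charZero_of_injective_algebraMap (algebraMap ℚ K).injective

theorem bK_ne_zero (hb : b ≠ 0) : algebraMap ℚ K b ≠ 0 :=
  (map_ne_zero_iff _ (algebraMap ℚ K).injective).2 hb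

theorem pt_cases (P : Pt b K) : P = 0 ∨ ∃ x y, OnCurve b K x y ∧ P = mk b x y := by
  by_cases h : P = 0
  · exact Or.inl h
  · exact Or.inr ⟨xc b P, yc b P, onCurve_xy b h, (mk_xy b h).symm⟩

theorem negY_eq (x y : K) : ((Wq b).baseChange K).toAffine.negY x y = -y := by
  simp [Affine.negY, Wq, WeierstrassCurve.baseChange]

theorem OnCurve.neg {x y : K} (h : OnCurve b K x y) : OnCurve b K x (-y) := by
  rw [OnCurve] at h ⊢
  linear_combination h

theorem mk_some (hb : b ≠ 0) {x y : K} (h : OnCurve b K x y) :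
    mk b x y = inj b (Affine.Point.some x y (nonsingular_of b hb h)) := by
  rw [mk, dif_pos (nonsingular_of b hb h)]

theorem neg_mk (hb : b ≠ 0) {x y : K} (h : OnCurve b K x y) : -mk b x y = mk b x (-y) := by
  rw [mk_some hb h, mk_some hb h.neg]
  let _ : DecidableEq K := Classical.decEq K
  have e := Affine.Point.neg_some (nonsingular_of b hb h)
  refine Eq.trans (b := inj b (Affine.Point.some x (((Wq b).baseChange K).toAffine.negY x y)
    ((Affine.nonsingular_neg ..).mpr (nonsingular_of b hb h)))) e ?_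
  congr 1
  simp only [negY_eq]

theorem xc_neg (hb : b ≠ 0) (P : Pt b K) : xc b (-P) = xc b P := by
  rcases pt_cases P with rfl | ⟨x, y, h, rfl⟩
  · rw [neg_zero]
  · rw [neg_mk hb h, xc_mk b hb h, xc_mk b hb h.neg]

theorem yc_neg (hb : b ≠ 0) (P : Pt b K) : yc b (-P) = -yc b P := by
  rcases pt_cases P with rfl | ⟨x, y, h, rfl⟩
  · rw [neg_zero, yc_zero, neg_zero]
  · rw [neg_mk hb h, yc_mk b hb h, yc_mk b hb h.neg]

theorem eq_or_neg (hb : b ≠ 0) {P Q : Pt b K} (hP : P ≠ 0) (hQ : Q ≠ 0)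
    (hx : xc b P = xc b Q) : P = Q ∨ P = -Q := by
  have h1 := onCurve_xy b hP
  have h2 := onCurve_xy b hQ
  rw [OnCurve] at h1 h2
  rw [← hx] at h2
  have h3 : (yc b P - yc b Q) * (yc b P + yc b Q) = 0 := by linear_combination h1 - h2
  rcases mul_eq_zero.1 h3 with h | h
  · left
    exact ext_xy hP hQ hx (by linear_combination h)
  · right
    refine ext_xy hP (neg_ne_zero.2 hQ) (by rw [xc_neg hb, hx]) ?_
    rw [yc_neg hb]
    linear_combination h

theorem add_mk (hb : b ≠ 0) {x₁ y₁ x₂ y₂ : K} (h₁ : OnCurve b K x₁ y₁) (h₂ : OnCurve b K x₂ y₂)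
    (hx : x₁ ≠ x₂) (l x₃ y₃ : K) (hl : l * (x₁ - x₂) = y₁ - y₂) (hx₃ : x₃ = l ^ 2 - x₁ - x₂)
    (hy₃ : y₃ = -(l * (x₃ - x₁) + y₁)) : mk b x₁ y₁ + mk b x₂ y₂ = mk b x₃ y₃ := by
  have hne : x₁ - x₂ ≠ 0 := sub_ne_zero.2 hx
  have hl' : l = (y₁ - y₂) / (x₁ - x₂) := by
    rw [eq_div_iff hne, hl]
  let _ : DecidableEq K := Classical.decEq K
  have hs : ((Wq b).baseChange K).toAffine.slope x₁ x₂ y₁ y₂ = l := by
    rw [Affine.slope_of_X_ne hx, hl']
  have e1 : ((Wq b).baseChange K).toAffine.addX x₁ x₂ l = x₃ := by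
    rw [hx₃]
    simp [Affine.addX, Wq, WeierstrassCurve.baseChange]
  have e2 : ((Wq b).baseChange K).toAffine.addY x₁ x₂ y₁ l = y₃ := by
    rw [Affine.addY, negY_eq, Affine.negAddY, e1, hy₃]
  have hns : ((Wq b).baseChange K).toAffine.Nonsingular x₃ y₃ := by
    have := Affine.nonsingular_add (nonsingular_of b hb h₁) (nonsingular_of b hb h₂)
      (fun hc => hx hc.1)
    rw [hs, e1, e2] at this
    exact this
  rw [mk_some hb h₁, mk_some hb h₂, mk, dif_pos hns]
  have e := Affine.Point.add_of_X_ne (h₁ := nonsingular_of b hb h₁)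
    (h₂ := nonsingular_of b hb h₂) hx
  refine Eq.trans (b := inj b (Affine.Point.some _ _ (Affine.nonsingular_add
    (nonsingular_of b hb h₁) (nonsingular_of b hb h₂) fun hc => hx hc.1))) e ?_
  congr 1
  simp only [hs, e1, e2]

theorem dbl_mk (hb : b ≠ 0) {x₁ y₁ : K} (h₁ : OnCurve b K x₁ y₁)
    (hy : y₁ ≠ 0) (l x₃ y₃ : K) (hl : l * (2 * y₁) = 3 * x₁ ^ 2 + algebraMap ℚ K b)
    (hx₃ : x₃ = l ^ 2 - x₁ - x₁)
    (hy₃ : y₃ = -(l * (x₃ - x₁) + y₁)) : mk b x₁ y₁ + mk b x₁ y₁ = mk b x₃ y₃ := by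
  have := charZero_of_algebra K
  have hne : 2 * y₁ ≠ 0 := mul_ne_zero two_ne_zero hy
  have hl' : l = (3 * x₁ ^ 2 + algebraMap ℚ K b) / (2 * y₁) := by
    rw [eq_div_iff hne, hl]
  have hy' : y₁ ≠ ((Wq b).baseChange K).toAffine.negY x₁ y₁ := by
    rw [negY_eq]
    intro hc
    apply hne
    linear_combination hc
  let _ : DecidableEq K := Classical.decEq K
  have hs : ((Wq b).baseChange K).toAffine.slope x₁ x₁ y₁ y₁ = l := by
    rw [Affine.slope_of_Y_ne rfl hy', hl', negY_eq]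
    congr 1
    · simp [Wq, WeierstrassCurve.baseChange]
    · ring
  have e1 : ((Wq b).baseChange K).toAffine.addX x₁ x₁ l = x₃ := by
    rw [hx₃]
    simp [Affine.addX, Wq, WeierstrassCurve.baseChange]
  have e2 : ((Wq b).baseChange K).toAffine.addY x₁ x₁ y₁ l = y₃ := by
    rw [Affine.addY, negY_eq, Affine.negAddY, e1, hy₃]
  have hns : ((Wq b).baseChange K).toAffine.Nonsingular x₃ y₃ := by
    have := Affine.nonsingular_add (nonsingular_of b hb h₁) (nonsingular_of b hb h₁)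
      (fun hc => hy' hc.2)
    rw [hs, e1, e2] at this
    exact this
  rw [mk_some hb h₁, mk, dif_pos hns]
  have e := Affine.Point.add_self_of_Y_ne (h₁ := nonsingular_of b hb h₁) hy'
  refine Eq.trans (b := inj b (Affine.Point.some _ _ (Affine.nonsingular_add
    (nonsingular_of b hb h₁) (nonsingular_of b hb h₁) fun hc => hy' hc.2))) e ?_
  congr 1
  simp only [hs, e1, e2]

theorem neg_T (hb : b ≠ 0) : -(T b : Pt b K) = T b := by
  rw [T, neg_mk hb onCurve_zero, neg_zero]

theorem T_add_T (hb : b ≠ 0) : (T b : Pt b K) + T b = 0 := by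
  nth_rewrite 1 [← neg_T hb]
  exact neg_add_cancel _

/-- translation by `T` -/
theorem add_T (hb : b ≠ 0) {x y : K} (h : OnCurve b K x y) (hx : x ≠ 0) :
    mk b x y + T b = mk b (algebraMap ℚ K b / x) (-(algebraMap ℚ K b * y) / x ^ 2) := by
  rw [T]
  refine add_mk hb h onCurve_zero hx (y / x) _ _ ?_ ?_ ?_
  · field_simp
    ring
  · rw [OnCurve] at h
    field_simp
    linear_combination -h
  · rw [OnCurve] at h
    field_simp
    ring

theorem add_T_ne_zero (hb : b ≠ 0) {P : Pt b K} (hP : xc b P ≠ 0) : P + T b ≠ 0 := by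
  intro h
  apply hP
  rw [xc_eq_zero hb]
  right
  rw [← neg_T hb]
  exact eq_neg_of_add_eq_zero_left h

theorem onCurve_add_T {x y : K} (h : OnCurve b K x y) (hx : x ≠ 0) :
    OnCurve b K (algebraMap ℚ K b / x) (-(algebraMap ℚ K b * y) / x ^ 2) := by
  rw [OnCurve] at h ⊢
  field_simp
  linear_combination (algebraMap ℚ K b) ^ 2 * h

theorem xc_add_T (hb : b ≠ 0) {P : Pt b K} (hP : xc b P ≠ 0) :
    xc b (P + T b) = algebraMap ℚ K b / xc b P := by
  have h0 : P ≠ 0 := by
    rintro rfl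
    exact hP rfl
  have h := onCurve_xy b h0
  nth_rewrite 1 [← mk_xy b h0]
  rw [add_T hb h hP, xc_mk b hb (onCurve_add_T h hP)]

theorem yc_add_T (hb : b ≠ 0) {P : Pt b K} (hP : xc b P ≠ 0) :
    yc b (P + T b) = -(algebraMap ℚ K b * yc b P) / xc b P ^ 2 := by
  have h0 : P ≠ 0 := by
    rintro rfl
    exact hP rfl
  have h := onCurve_xy b h0
  nth_rewrite 1 [← mk_xy b h0]
  rw [add_T hb h hP, yc_mk b hb (onCurve_add_T h hP)]

end

section Gal

variable {b : ℚ} {K : Type} [Field K] [Algebra ℚ K]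

theorem gact_add (g : GK K) (P Q : Pt b (Kb K)) :
    gact K b g (P + Q) = gact K b g P + gact K b g Q := mapF_add _ _ _

theorem gact_sub (g : GK K) (P Q : Pt b (Kb K)) :
    gact K b g (P - Q) = gact K b g P - gact K b g Q := mapF_sub _ _ _

theorem gact_neg (g : GK K) (P : Pt b (Kb K)) : gact K b g (-P) = -gact K b g P := mapF_neg _ _

theorem gact_zero (g : GK K) : gact K b g (0 : Pt b (Kb K)) = 0 := rfl

theorem gact_mul (g h : GK K) (P : Pt b (Kb K)) :
    gact K b (g * h) P = gact K b g (gact K b h P) := by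
  cases P <;> rfl

theorem gact_one (P : Pt b (Kb K)) : gact K b (1 : GK K) P = P := by
  cases P <;> rfl

theorem gact_inj (g : GK K) {P Q : Pt b (Kb K)} (h : gact K b g P = gact K b g Q) : P = Q :=
  mapF_inj _ h

theorem gact_T (hb : b ≠ 0) (g : GK K) : gact K b g (T b) = T b := mapF_T hb _

theorem xc_gact (g : GK K) (P : Pt b (Kb K)) : xc b (gact K b g P) = g (xc b P) := xc_mapF _ _

theorem yc_gact (g : GK K) (P : Pt b (Kb K)) : yc b (gact K b g P) = g (yc b P) := yc_mapF _ _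

theorem gact_incl (g : GK K) (e : Pt b K) :
    gact K b g (mapF b (incl K) e) = mapF b (incl K) e := by
  rw [gact, mapF_mapF]
  congr 1
  ext x
  exact g.commutes x

/-- points fixed by the Galois group are rational -/
theorem pt_exists_of_fixed [CharZero K] (hb : b ≠ 0) (P : Pt b (Kb K)) (h : ∀ g, gact K b g P = P) :
    ∃ e : Pt b K, mapF b (incl K) e = P := by
  by_cases hP : P = 0
  · exact ⟨0, by rw [hP, mapF_zero]⟩
  have h1 : ∀ x : Kb K, (∀ g : GK K, g x = x) → ∃ t : K, algebraMap K (Kb K) t = x := fun x hx =>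
    (InfiniteGalois.mem_range_algebraMap_iff_fixed (k := K) (K := Kb K) x).2 hx
  obtain ⟨u, hu⟩ := h1 (xc b P) fun g => by rw [← xc_gact, h g]
  obtain ⟨v, hv⟩ := h1 (yc b P) fun g => by rw [← yc_gact, h g]
  have hu' : incl K u = xc b P := hu
  have hv' : incl K v = yc b P := hv
  have hc : OnCurve b K u v := by
    have h2 := onCurve_xy b hP
    rw [← hu', ← hv', OnCurve, ← (incl K).commutes, ← map_pow, ← map_pow, ← map_mul,
      ← map_add] at h2
    exact (incl K).toRingHom.injective h2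
  refine ⟨mk b u v, ?_⟩
  rw [mapF_mk hb _ hc, hu', hv', mk_xy b hP]

theorem mapF_emb_gact (g : GK K) (P : Pt b (Kb ℚ)) :
    mapF b (emb ℚ K) (gact ℚ b (resG ℚ K g) P) = gact K b g (mapF b (emb ℚ K) P) := by
  cases P with
  | zero => rfl
  | some x y h =>
    have h1 : mapF b (emb ℚ K) (gact ℚ b (resG ℚ K g) (inj b (Affine.Point.some x y h))) ≠ 0 := by
      rw [Ne, mapF_eq_zero, gact, mapF_eq_zero]
      exact Affine.Point.some_ne_zero h
    have h2 : gact K b g (mapF b (emb ℚ K) (inj b (Affine.Point.some x y h))) ≠ 0 := by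
      rw [Ne, gact, mapF_eq_zero, mapF_eq_zero]
      exact Affine.Point.some_ne_zero h
    apply ext_xy h1 h2
    · rw [xc_mapF, xc_gact, xc_gact, xc_mapF, emb_resG]
    · rw [yc_mapF, yc_gact, yc_gact, yc_mapF, emb_resG]

/-- the Galois action on a point is smooth -/
theorem gact_smooth (P : Pt b (Kb K)) :
    ∃ M : IntermediateField K (Kb K), FiniteDimensional K M ∧
      ∀ g h : GK K, Agree K M g h → gact K b g P = gact K b h P := by
  obtain ⟨M, hM, hs⟩ := exists_finite_sub (K := K) {xc b P, yc b P} (by simp)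
  refine ⟨M, hM, fun g h hg => ?_⟩
  by_cases hP : P = 0
  · rw [hP, gact_zero, gact_zero]
  have h1 : gact K b g P ≠ 0 := by rwa [Ne, gact, mapF_eq_zero]
  have h2 : gact K b h P ≠ 0 := by rwa [Ne, gact, mapF_eq_zero]
  apply ext_xy h1 h2
  · rw [xc_gact, xc_gact]
    exact hg _ (hs (by simp))
  · rw [yc_gact, yc_gact]
    exact hg _ (hs (by simp))

end Gal

end BB37
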