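import Pool.Agent.Lib.MP_bb37eb_nt.EC.Act
import Pool.Agent.Lib.MP_bb37eb_nt.BR.ExistsCsa

/-! The 2-cocycle on the group `N x| Gal(L/Q)` attached to `xi` and a constant cocycle. -/

namespace BB37

/-- a context adapted to `xi` and a cocycle `c0` -/
structure XCtx {b : ℕ → ℚ} {d : ℕ} (ξ : Xi b d) (c₀ : Z2 ℚ) (L : Type) [Field L] [Algebra ℚ L]
    extends Ctx b d L where
  inf : ∀ G G' : GK ℚ, (∀ x, G (ι x) = G' (ι x)) → ξ.f G = ξ.f G'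
  val : ∀ G P, downF b (Kb ℚ) d P = 0 → ∃ u : L, ι u = (ξ.f G P : Kb ℚ)
  inf₂ : ∀ G G' H H' : GK ℚ, (∀ x, G (ι x) = G' (ι x)) → (∀ x, H (ι x) = H' (ι x)) →
    c₀.1 (G, H) = c₀.1 (G', H')
  val₂ : ∀ G H : GK ℚ, ∃ u : L, ι u = (c₀.1 (G, H) : Kb ℚ)

theorem exists_point {b : ℚ} (hb : b ≠ 0) {L M : Type} [Field L] [Algebra ℚ L] [Field M]
    [Algebra ℚ M] (ι : L →ₐ[ℚ] M) (P : Pt b M) (hx : ∃ u, ι u = xc b P)
    (hy : ∃ v, ι v = yc b P) : ∃ P' : Pt b L, mapF b ι P' = P := by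
  by_cases h0 : P = 0
  · exact ⟨0, by rw [h0, mapF_zero]⟩
  obtain ⟨u, hu⟩ := hx
  obtain ⟨v, hv⟩ := hy
  have hc : OnCurve b L u v := by
    have h2 := onCurve_xy b h0
    rw [← hu, ← hv, OnCurve, ← ι.commutes, ← map_pow, ← map_pow, ← map_mul, ← map_add] at h2
    exact ι.toRingHom.injective h2
  refine ⟨mk b u v, ?_⟩
  rw [mapF_mk hb _ hc, hu, hv, mk_xy b h0]

theorem exists_ctx {b : ℕ → ℚ} (hb : Tower b) {d : ℕ} (ξ : Xi b d) (c₀ : Z2 ℚ) :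
    ∃ (L : Type) (_ : Field L) (_ : Algebra ℚ L), Nonempty (XCtx ξ c₀ L) := by
  obtain ⟨M₃, hM₃, -, hi, hv⟩ := Z2_values ℚ c₀
  obtain ⟨M₁, hM₁, -, h1⟩ := ξ.smooth.normal
  have hr := ξ.smooth.finite_range
  have hk := ker_finite hb (K := Kb ℚ) d
  let A : Set (Kb ℚ) := (fun t : (Pt (b 0) (Kb ℚ) → (Kb ℚ)ˣ) × Pt (b 0) (Kb ℚ) =>
    ((t.1 t.2 : (Kb ℚ)ˣ) : Kb ℚ)) '' (Set.range ξ.f ×ˢ {P | downF b (Kb ℚ) d P = 0})
  have hA : A.Finite := (hr.prod hk).image _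
  obtain ⟨M₂, hM₂, h2⟩ := exists_finite_sub (K := ℚ)
    (A ∪ (xc (b 0) '' {P | downF b (Kb ℚ) d P = 0} ∪ yc (b 0) '' {P | downF b (Kb ℚ) d P = 0}))
    (hA.union ((hk.image _).union (hk.image _)))
  obtain ⟨M, h3', h4, h5⟩ := exists_normal ℚ (M₁ ⊔ M₂ ⊔ M₃)
  have h3 : M₁ ⊔ M₂ ≤ M := le_sup_left.trans h3'
  have h6 : M₃ ≤ M := le_sup_right.trans h3'
  refine ⟨M, inferInstance, IntermediateField.algebra' M,
    ⟨⟨⟨hb, h4, h5, M.val, ?_⟩, ?_, ?_, ?_, ?_⟩⟩⟩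
  · intro P hP
    have hx : xc (b 0) P ∈ M := h3 (le_sup_right (a := M₁) (h2 (Or.inr (Or.inl ⟨P, hP, rfl⟩))))
    have hy : yc (b 0) P ∈ M := h3 (le_sup_right (a := M₁) (h2 (Or.inr (Or.inr ⟨P, hP, rfl⟩))))
    exact exists_point hb.ne _ P ⟨⟨_, hx⟩, rfl⟩ ⟨⟨_, hy⟩, rfl⟩
  · intro G G' hG
    apply h1
    intro x hx
    exact hG ⟨x, h3 (le_sup_left (a := M₁) hx)⟩
  · intro G P hP
    have hv : ((ξ.f G P : (Kb ℚ)ˣ) : Kb ℚ) ∈ M :=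
      h3 (le_sup_right (a := M₁) (h2 (Or.inl ⟨(ξ.f G, P), ⟨⟨G, rfl⟩, hP⟩, rfl⟩)))
    exact ⟨⟨_, hv⟩, rfl⟩
  · intro G G' H H' hG hH
    exact hi G G' H H' (fun x hx => hG ⟨x, h6 hx⟩) fun x hx => hH ⟨x, h6 hx⟩
  · intro G H
    exact ⟨⟨_, h6 (hv G H)⟩, rfl⟩

namespace XCtx

variable {b : ℕ → ℚ} {d : ℕ} {ξ : Xi b d} {c₀ : Z2 ℚ} {L : Type} [Field L] [Algebra ℚ L]
  (C : XCtx ξ c₀ L)

theorem map_lft (g : L ≃ₐ[ℚ] L) (P : Pt (b 0) L) :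
    mapF (b 0) C.ι (mapF (b 0) (g : L →ₐ[ℚ] L) P) =
      gact ℚ (b 0) (lft C.ι g) (mapF (b 0) C.ι P) := by
  rw [gact, mapF_mapF, mapF_mapF]
  congr 1
  ext x
  exact (lft_apply C.ι g x).symm

theorem exists_xiL (g : L ≃ₐ[ℚ] L) (P : Pt (b 0) L) (hP : downF b L d P = 0) :
    ∃ u : Lˣ, C.ι u = (ξ.f (lft C.ι g) (mapF (b 0) C.ι P) : Kb ℚ) := by
  obtain ⟨u, hu⟩ := C.val (lft C.ι g) (mapF (b 0) C.ι P) (by
    rw [down_mapF C.tower, hP, mapF_zero])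
  refine ⟨Units.mk0 u ?_, hu⟩
  rintro rfl
  rw [map_zero] at hu
  exact (ξ.f (lft C.ι g) (mapF (b 0) C.ι P)).ne_zero hu.symm

/-- the values of `xi` in `L` -/
noncomputable def xiL (g : L ≃ₐ[ℚ] L) (P : {P : Pt (b 0) L // downF b L d P = 0}) : Lˣ :=
  (C.exists_xiL g P.1 P.2).choose

theorem ι_xiL (g : L ≃ₐ[ℚ] L) (P : {P : Pt (b 0) L // downF b L d P = 0}) :
    C.ι (C.xiL g P) = (ξ.f (lft C.ι g) (mapF (b 0) C.ι P.1) : Kb ℚ) :=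
  (C.exists_xiL g P.1 P.2).choose_spec

include C in
theorem gal_ker (g : L ≃ₐ[ℚ] L) {P : Pt (b 0) L} (hP : downF b L d P = 0) :
    downF b L d (mapF (b 0) (g : L →ₐ[ℚ] L) P) = 0 := by
  rw [down_mapF C.tower, hP, mapF_zero]

theorem exists_c0L (g h : L ≃ₐ[ℚ] L) :
    ∃ u : Lˣ, C.ι u = (c₀.1 (lft C.ι g, lft C.ι h) : Kb ℚ) := by
  obtain ⟨u, hu⟩ := C.val₂ (lft C.ι g) (lft C.ι h)
  refine ⟨Units.mk0 u ?_, hu⟩
  rintro rfl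
  rw [map_zero] at hu
  exact (c₀.1 (lft C.ι g, lft C.ι h)).ne_zero hu.symm

/-- the values of `c0` in `L` -/
noncomputable def c0L (g h : L ≃ₐ[ℚ] L) : Lˣ := (C.exists_c0L g h).choose

theorem ι_c0L (g h : L ≃ₐ[ℚ] L) : C.ι (C.c0L g h) = (c₀.1 (lft C.ι g, lft C.ι h) : Kb ℚ) :=
  (C.exists_c0L g h).choose_spec

theorem c0L_coc (g h j : L ≃ₐ[ℚ] L) :
    (C.c0L (g * h) j : L) * C.c0L g h = g (C.c0L h j) * C.c0L g (h * j) := by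
  apply ι_inj C.ι
  have h1 : ∀ g h : L ≃ₐ[ℚ] L, ∀ x, lft C.ι (g * h) (C.ι x) = (lft C.ι g * lft C.ι h) (C.ι x) := by
    intro g h x
    rw [lft_apply, AlgEquiv.mul_apply, AlgEquiv.mul_apply, lft_apply, lft_apply]
  rw [map_mul, map_mul, ← lft_apply, ι_c0L, ι_c0L, ι_c0L, ι_c0L,
    C.inf₂ _ (lft C.ι g * lft C.ι h) _ (lft C.ι j) (h1 g h) (fun _ => rfl),
    C.inf₂ _ (lft C.ι g) _ (lft C.ι h * lft C.ι j) (fun _ => rfl) (h1 h j), ← Units.val_mul]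
  have h2 := c₀.2.2 (lft C.ι g) (lft C.ι h) (lft C.ι j)
  rw [h2]
  rfl

/-- the cocycle with values in `L` -/
noncomputable def cL (γ δ : Gam C.toCtx) : Lˣ :=
  C.xiL γ.g ⟨mapF (b 0) (γ.g : L →ₐ[ℚ] L) δ.P, C.gal_ker γ.g δ.hP⟩

theorem ι_cL (γ δ : Gam C.toCtx) : C.ι (C.cL γ δ) =
    (ξ.f (lft C.ι γ.g) (gact ℚ (b 0) (lft C.ι γ.g) (mapF (b 0) C.ι δ.P)) : Kb ℚ) := by
  rw [cL, ι_xiL, map_lft]

theorem lft_mul (g h : L ≃ₐ[ℚ] L) : ξ.f (lft C.ι (g * h)) = ξ.f (lft C.ι g * lft C.ι h) := by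
  apply C.inf
  intro x
  rw [lft_apply, AlgEquiv.mul_apply, AlgEquiv.mul_apply, lft_apply, lft_apply]

theorem cL_coc (α β δ : Gam C.toCtx) :
    (C.cL (α * β) δ : L) * C.cL α β = α.g (C.cL β δ) * C.cL α (β * δ) := by
  apply ι_inj C.ι
  have hk : ∀ γ : Gam C.toCtx, downF b (Kb ℚ) d (mapF (b 0) C.ι γ.P) = 0 := by
    intro γ
    rw [down_mapF C.tower, γ.hP, mapF_zero]
  set G := lft C.ι α.g with hG
  set H := lft C.ι β.g with hH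
  set P := mapF (b 0) C.ι β.P with hP
  set Q := mapF (b 0) C.ι δ.P with hQ
  have e1 : C.ι (C.cL (α * β) δ) = ((ξ.f G (gact ℚ (b 0) G (gact ℚ (b 0) H Q)) *
      G • ξ.f H (gact ℚ (b 0) H Q) : (Kb ℚ)ˣ) : Kb ℚ) := by
    rw [ι_cL, Ctx.mul_g, lft_mul, ← ξ.coc G H (gact ℚ (b 0) H Q) (ker_gact C.tower H (hk δ))]
    congr 2
    rw [← gact_mul, gact, gact, mapF_mapF, mapF_mapF]
    congr 1
    ext x
    change lft C.ι (α.g * β.g) (C.ι x) = G (H (C.ι x))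
    rw [lft_apply, lft_apply, lft_apply, AlgEquiv.mul_apply]
  have e2 : C.ι (C.cL α β) = (ξ.f G (gact ℚ (b 0) G P) : Kb ℚ) := C.ι_cL α β
  have e3 : C.ι (α.g (C.cL β δ)) = ((G • ξ.f H (gact ℚ (b 0) H Q) : (Kb ℚ)ˣ) : Kb ℚ) := by
    rw [← lft_apply, ι_cL]
    rfl
  have e4 : C.ι (C.cL α (β * δ)) = ((ξ.f G (gact ℚ (b 0) G P) *
      ξ.f G (gact ℚ (b 0) G (gact ℚ (b 0) H Q)) : (Kb ℚ)ˣ) : Kb ℚ) := by
    rw [ι_cL, ← ξ.add G _ _ (ker_gact C.tower G (hk β))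
      (ker_gact C.tower G (ker_gact C.tower H (hk δ))), ← gact_add, Ctx.mul_P, mapF_add, map_lft]
  rw [map_mul, map_mul, e1, e2, e3, e4, ← Units.val_mul, ← Units.val_mul]
  congr 1
  generalize ξ.f G (gact ℚ (b 0) G (gact ℚ (b 0) H Q)) = u
  generalize ξ.f G (gact ℚ (b 0) G P) = v
  generalize G • ξ.f H (gact ℚ (b 0) H Q) = w
  rw [mul_comm u w, mul_assoc, mul_comm u v]

/-- the cocycle with values in the units of the ring -/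
noncomputable def cS (γ δ : Gam C.toCtx) : (C.toCtx.S)ˣ :=
  Units.map (C.toCtx.cst : L →* C.toCtx.S) (C.cL γ δ * C.c0L γ.g δ.g)

end XCtx

theorem Ctx.act_cst {b : ℕ → ℚ} {d : ℕ} {L : Type} [Field L] [Algebra ℚ L] {C : Ctx b d L}
    (γ : Gam C) (c : L) : Ctx.act γ (C.cst c) = C.cst (γ.g c) := by
  apply C.joint
  intro f _
  exact Ctx.fL_act f γ c

theorem XCtx.cS_coc {b : ℕ → ℚ} {d : ℕ} {ξ : Xi b d} {c₀ : Z2 ℚ} {L : Type} [Field L]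
    [Algebra ℚ L] (C : XCtx ξ c₀ L) (α β δ : Gam C.toCtx) :
    (C.cS (α * β) δ : C.toCtx.S) * C.cS α β = α • (C.cS β δ : C.toCtx.S) * C.cS α (β * δ) := by
  have h1 := C.cL_coc α β δ
  have h2 := C.c0L_coc α.g β.g δ.g
  have h3 : ((C.cL (α * β) δ * C.c0L (α * β).g δ.g : Lˣ) : L) *
      ((C.cL α β * C.c0L α.g β.g : Lˣ) : L) =
      α.g ((C.cL β δ * C.c0L β.g δ.g : Lˣ) : L) *
        ((C.cL α (β * δ) * C.c0L α.g (β * δ).g : Lˣ) : L) := by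
    rw [Ctx.mul_g, Ctx.mul_g, Units.val_mul, Units.val_mul, Units.val_mul, Units.val_mul, map_mul]
    linear_combination (C.c0L (α.g * β.g) δ.g : L) * C.c0L α.g β.g * h1 +
      (α.g (C.cL β δ) * C.cL α (β * δ)) * h2
  have h := congrArg C.toCtx.cst h3
  rw [map_mul, map_mul, ← Ctx.act_cst] at h
  exact h

end BB37
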