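import Pool.Agent.Lib.MP_bb37eb_nt.EC.Ker

/-! Embeddings of a normal extension of the rationals. -/

namespace BB37

section

variable {L : Type} [Field L] [Algebra ℚ L] [Normal ℚ L]

/-- two embeddings of a normal extension differ by an automorphism -/
theorem exists_aut {M : Type} [Field M] [Algebra ℚ M] (τ₁ τ₂ : L →ₐ[ℚ] M) :
    ∃ g : L ≃ₐ[ℚ] L, ∀ x, τ₁ (g x) = τ₂ x := by
  let _ : Algebra L M := τ₁.toRingHom.toAlgebra
  have : IsScalarTower ℚ L M := IsScalarTower.of_algebraMap_eq fun x => (τ₁.commutes x).symm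
  exact ⟨AlgHom.restrictNormal' τ₂ L, fun x => AlgHom.restrictNormal_commutes τ₂ L x⟩

variable (ι : L →ₐ[ℚ] Kb ℚ)

omit [Normal ℚ L] in
/-- automorphisms lift to the algebraic closure -/
theorem exists_lift_aut (g : L ≃ₐ[ℚ] L) : ∃ G : GK ℚ, ∀ x, G (ι x) = ι (g x) := by
  let _ : Algebra L (Kb ℚ) := ι.toRingHom.toAlgebra
  have : IsScalarTower ℚ L (Kb ℚ) := IsScalarTower.of_algebraMap_eq fun x => (ι.commutes x).symm
  exact ⟨AlgEquiv.liftNormal g (Kb ℚ), fun x => AlgEquiv.liftNormal_commutes g (Kb ℚ) x⟩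

omit [Normal ℚ L] in
/-- a lift of an automorphism -/
noncomputable def lft (g : L ≃ₐ[ℚ] L) : GK ℚ := (exists_lift_aut ι g).choose

omit [Normal ℚ L] in
theorem lft_apply (g : L ≃ₐ[ℚ] L) (x : L) : lft ι g (ι x) = ι (g x) :=
  (exists_lift_aut ι g).choose_spec x

/-- restriction to a normal extension -/
noncomputable def rst (G : GK ℚ) : L ≃ₐ[ℚ] L :=
  (exists_aut ι ((G : Kb ℚ →ₐ[ℚ] Kb ℚ).comp ι)).choose

theorem rst_apply (G : GK ℚ) (x : L) : ι (rst ι G x) = G (ι x) :=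
  (exists_aut ι ((G : Kb ℚ →ₐ[ℚ] Kb ℚ).comp ι)).choose_spec x

omit [Normal ℚ L] in
theorem ι_inj {x y : L} (h : ι x = ι y) : x = y := ι.toRingHom.injective h

theorem rst_mul (G H : GK ℚ) : rst ι (G * H) = rst ι G * rst ι H := by
  ext x
  apply ι_inj ι
  rw [rst_apply, AlgEquiv.mul_apply, AlgEquiv.mul_apply, rst_apply, rst_apply]

theorem rst_one : rst ι 1 = 1 := by
  ext x
  apply ι_inj ι
  rw [rst_apply, AlgEquiv.one_apply, AlgEquiv.one_apply]

end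

/-- all kernel points over `Qbar` come from `L` -/
structure Ctx (b : ℕ → ℚ) (d : ℕ) (L : Type) [Field L] [Algebra ℚ L] where
  tower : Tower b
  fin : FiniteDimensional ℚ L
  nor : Normal ℚ L
  ι : L →ₐ[ℚ] Kb ℚ
  hL : ∀ P : Pt (b 0) (Kb ℚ), downF b (Kb ℚ) d P = 0 → ∃ P' : Pt (b 0) L, mapF (b 0) ι P' = P

namespace Ctx

variable {b : ℕ → ℚ} {d : ℕ} {L : Type} [Field L] [Algebra ℚ L] (C : Ctx b d L)

include C

/-- kernel points over any field containing `L` come from `L` -/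
theorem ker_points {Ω : Type} [Field Ω] [Algebra ℚ Ω] (τ : L →ₐ[ℚ] Ω) (a : Pt (b 0) Ω)
    (ha : downF b Ω d a = 0) : ∃ P : Pt (b 0) L, downF b L d P = 0 ∧ mapF (b 0) τ P = a := by
  have := C.nor
  have h1 : downF b (Kb Ω) d (mapF (b 0) (incl Ω) a) = 0 := by
    rw [down_mapF C.tower, ha, mapF_zero]
  obtain ⟨P₀, h2, h3⟩ := ker_alg C.tower d Ω _ h1
  obtain ⟨P', h4⟩ := C.hL P₀ h2
  obtain ⟨g, hg⟩ := exists_aut ((incl Ω).comp τ) ((emb ℚ Ω).comp C.ι)
  have h5 : mapF (b 0) τ (mapF (b 0) (g : L →ₐ[ℚ] L) P') = a := by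
    apply mapF_inj (incl Ω)
    rw [← h3, ← h4, mapF_mapF, mapF_mapF, mapF_mapF]
    congr 1
    ext x
    exact hg x
  refine ⟨_, ?_, h5⟩
  apply mapF_inj τ
  rw [← down_mapF C.tower, h5, ha, mapF_zero]

end Ctx

end BB37
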