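import Pool.Agent.Lib.MP_bb37eb_nt.EC.Ker

/-! The one-step lemma on invariants of the kernel of a 2-isogeny. -/

namespace BB37

section Step

variable {Ω : Type} [Field Ω]

/-- the functions `P(x + β/x) + x Q(x + β/x)` -/
private def InvStep_form (β : Ω) (F : Ω → Ω) : Prop :=
  ∃ P Q : Polynomial Ω, ∀ x : Ω, x ≠ 0 → F x = P.eval (x + β / x) + x * Q.eval (x + β / x)

private theorem InvStep_add {β : Ω} {F G : Ω → Ω} (hF : InvStep_form β F)
    (hG : InvStep_form β G) : InvStep_form β fun x => F x + G x := by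
  obtain ⟨P, Q, h⟩ := hF
  obtain ⟨P', Q', h'⟩ := hG
  refine ⟨P + P', Q + Q', fun x hx => ?_⟩
  beta_reduce
  rw [h x hx, h' x hx, Polynomial.eval_add, Polynomial.eval_add]
  ring

private theorem InvStep_mul {β : Ω} {F G : Ω → Ω} (hF : InvStep_form β F)
    (hG : InvStep_form β G) : InvStep_form β fun x => F x * G x := by
  obtain ⟨P, Q, h⟩ := hF
  obtain ⟨P', Q', h'⟩ := hG
  refine ⟨P * P' - Polynomial.C β * (Q * Q'), P * Q' + Q * P' + Polynomial.X * (Q * Q'),
    fun x hx => ?_⟩
  beta_reduce
  rw [h x hx, h' x hx]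
  simp only [Polynomial.eval_add, Polynomial.eval_sub, Polynomial.eval_mul, Polynomial.eval_C,
    Polynomial.eval_X]
  have e : x * (x + β / x) = x ^ 2 + β := by field_simp
  linear_combination -(Q.eval (x + β / x) * Q'.eval (x + β / x)) * e

private theorem InvStep_const (β c : Ω) : InvStep_form β fun _ => c :=
  ⟨Polynomial.C c, 0, fun x _ => by simp⟩

private theorem InvStep_id (β : Ω) : InvStep_form β fun x => x :=
  ⟨0, 1, fun x _ => by simp⟩

private theorem InvStep_inv (β : Ω) : InvStep_form β fun x => β / x :=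
  ⟨Polynomial.X, -1, fun x _ => by simp⟩

private theorem InvStep_poly {β : Ω} {F : Ω → Ω} (hF : InvStep_form β F) (A : Polynomial Ω) :
    InvStep_form β fun x => A.eval (F x) := by
  induction A using Polynomial.induction_on' with
  | add p q hp hq =>
    simp only [Polynomial.eval_add]
    exact InvStep_add hp hq
  | monomial n a =>
    have h : ∀ m : ℕ, InvStep_form β fun x => F x ^ m := by
      intro m
      induction m with
      | zero =>
        simp only [pow_zero]
        exact InvStep_const β 1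
      | succ m ih =>
        simp only [pow_succ]
        exact InvStep_mul ih hF
    simp only [Polynomial.eval_monomial]
    exact InvStep_mul (InvStep_const β a) (h n)

/-- Every polynomial in `x` and `β/x` has the form `P(x + β/x) + x Q(x + β/x)`. Proof. The
functions `F` of `x ≠ 0` of the form `P(X) + x Q(X)` with `X = x + β/x` are closed under sums and
products (`x^2 = X x - β`) and contain the constants, `x` and `β/x = X - x`; induction on `A`
and `B` (`Polynomial.induction_on'`). -/
theorem form_PQ (β : Ω) (A B : Polynomial Ω) :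
    ∃ P Q : Polynomial Ω, ∀ x : Ω, x ≠ 0 →
      A.eval x * B.eval (β / x) = P.eval (x + β / x) + x * Q.eval (x + β / x) :=
  InvStep_mul (InvStep_poly (InvStep_id β) A) (InvStep_poly (InvStep_inv β) B)

end Step

section

variable {b b' : ℚ} (hb : b ≠ 0) (hb' : b' = -4 * b) {Ω : Type} [Field Ω] [Algebra ℚ Ω]

include hb hb'

/-- one step: if `F = p(x) + q(x) y`, then `F(a) D(x(a+T)) + F(a+T) D(x(a))` is of the same form
on the next curve, and so is `D(x(a)) D(x(a+T))`. Proof. `x(a+T) = β/x` (`xc_add_T`),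
`y(a+T) = -β y/x^2` (`yc_add_T`), `X = x + β/x` (`xc_iso_add`), `Y = y (β - x^2)/x^2` (`yc_iso`);
with `z = y/x`: `y(a+T) = -(β/x) z`, `Y = -z (x - β/x)`. Apply `form_PQ` to
`p, D` (giving `P₁, Q₁`) and to `X * q, D` (giving `P₂, Q₂`): the sum is
`2 P₁(X) + X Q₁(X) + (x - β/x) Q₂(X) z = (2 P₁ + X Q₁)(X) - Q₂(X) Y`. Similarly for `D, D`. -/
theorem inv_step (D p q : Polynomial Ω) : ∃ D₁ p₁ q₁ : Polynomial Ω, ∀ a : Pt b Ω, xc b a ≠ 0 →
    D₁.eval (xc b' (isoF b b' a)) = 2 * (D.eval (xc b a) * D.eval (xc b (a + T b))) ∧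
    p₁.eval (xc b' (isoF b b' a)) + q₁.eval (xc b' (isoF b b' a)) * yc b' (isoF b b' a) =
      (p.eval (xc b a) + q.eval (xc b a) * yc b a) * D.eval (xc b (a + T b)) +
      (p.eval (xc b (a + T b)) + q.eval (xc b (a + T b)) * yc b (a + T b)) * D.eval (xc b a) := by
  have hbK : algebraMap ℚ Ω b ≠ 0 := bK_ne_zero hb
  set β := algebraMap ℚ Ω b with hβ
  obtain ⟨P₀, Q₀, h0⟩ := form_PQ β D D
  obtain ⟨P₁, Q₁, h1⟩ := form_PQ β p D
  obtain ⟨P₂, Q₂, h2⟩ := form_PQ β (Polynomial.X * q) D
  refine ⟨2 * P₀ + Polynomial.X * Q₀, 2 * P₁ + Polynomial.X * Q₁, -Q₂, fun a ha => ?_⟩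
  have hx' : β / xc b a ≠ 0 := div_ne_zero hbK ha
  have hsw : β / (β / xc b a) = xc b a := by field_simp
  rw [xc_iso_add hb hb' ha, yc_iso hb hb' ha, xc_add_T hb ha, yc_add_T hb ha, ← hβ]
  have a0 := h0 _ ha
  have b0 := h0 _ hx'
  have a1 := h1 _ ha
  have b1 := h1 _ hx'
  have a2 := h2 _ ha
  have b2 := h2 _ hx'
  rw [hsw, add_comm (β / xc b a) (xc b a)] at b0 b1 b2
  rw [Polynomial.eval_mul, Polynomial.eval_X] at a2 b2
  set x := xc b a with hx
  set y := yc b a with hy
  set X := x + β / x with hX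
  simp only [Polynomial.eval_add, Polynomial.eval_mul, Polynomial.eval_X, Polynomial.eval_neg,
    Polynomial.eval_ofNat]
  constructor
  · linear_combination -a0 - b0 - Q₀.eval X * hX
  · generalize Polynomial.eval x D = d at *
    generalize Polynomial.eval (β / x) D = d' at *
    generalize Polynomial.eval x p = p0 at *
    generalize Polynomial.eval (β / x) p = p0' at *
    generalize Polynomial.eval x q = q0 at *
    generalize Polynomial.eval (β / x) q = q0' at *
    generalize Polynomial.eval X P₁ = e1 at *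
    generalize Polynomial.eval X Q₁ = e2 at *
    generalize Polynomial.eval X P₂ = e3 at *
    generalize Polynomial.eval X Q₂ = e4 at *
    have k : -e4 * (y * (β - x ^ 2) / x ^ 2) = q0 * y * d' + q0' * (-(β * y) / x ^ 2) * d := by
      have e : (x - β / x) * e4 = x * q0 * d' - β / x * q0' * d := by
        linear_combination -a2 + b2
      have e' : -e4 * (y * (β - x ^ 2) / x ^ 2) = ((x - β / x) * e4) * (y / x) := by
        field_simp
        ring
      rw [e', e]
      field_simp
      ring
    have k1 : 2 * e1 + X * e2 = p0 * d' + p0' * d := by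
      rw [a1, b1, hX]
      ring
    linear_combination k1 + k

end

end BB37
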