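import Pool.Agent.Lib.MP_bb37eb_nt.EC.Basic

/-! The 2-isogeny is a homomorphism with kernel `{0, T}`. -/

namespace BB37

section Line

variable {b : ℚ} {K : Type} [Field K] [Algebra ℚ K]

/-- the three points of intersection with a line have sum zero -/
theorem line_sum (hb : b ≠ 0) {l m x₁ x₂ x₃ : K} (e1 : x₁ + x₂ + x₃ = l ^ 2)
    (e2 : x₁ * x₂ + x₁ * x₃ + x₂ * x₃ = algebraMap ℚ K b - 2 * l * m)
    (e3 : x₁ * x₂ * x₃ = m ^ 2) :
    mk b x₁ (l * x₁ + m) + mk b x₂ (l * x₂ + m) + mk b x₃ (l * x₃ + m) = 0 := by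
  have := charZero_of_algebra K
  have h1 : OnCurve b K x₁ (l * x₁ + m) := by
    rw [OnCurve]
    linear_combination -x₁ ^ 2 * e1 + x₁ * e2 - e3
  have h2 : OnCurve b K x₂ (l * x₂ + m) := by
    rw [OnCurve]
    linear_combination -x₂ ^ 2 * e1 + x₂ * e2 - e3
  have h3 : OnCurve b K x₃ (l * x₃ + m) := by
    rw [OnCurve]
    linear_combination -x₃ ^ 2 * e1 + x₃ * e2 - e3
  have hlast : mk b x₃ (-(l * x₃ + m)) + mk b x₃ (l * x₃ + m) = 0 := by
    rw [← neg_mk hb h3, neg_add_cancel]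
  by_cases hx : x₁ = x₂
  · subst hx
    have hd : l * (2 * (l * x₁ + m)) = 3 * x₁ ^ 2 + algebraMap ℚ K b := by
      linear_combination -2 * x₁ * e1 + e2
    have hy : l * x₁ + m ≠ 0 := by
      intro hy
      rw [hy] at hd
      rw [OnCurve, hy] at h1
      have h4 : x₁ * (x₁ ^ 2 + algebraMap ℚ K b) = 0 := by linear_combination -h1
      rcases mul_eq_zero.1 h4 with h5 | h5
      · rw [h5] at hd
        exact bK_ne_zero (K := K) hb (by linear_combination -hd)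
      · have h6 : (2 : K) * algebraMap ℚ K b = 0 := by linear_combination 3 * h5 + hd
        exact bK_ne_zero (K := K) hb ((mul_eq_zero.1 h6).resolve_left two_ne_zero)
    rw [dbl_mk hb h1 hy l x₃ (-(l * x₃ + m)) hd (by linear_combination e1)
      (by ring)]
    exact hlast
  · rw [add_mk hb h1 h2 hx l x₃ (-(l * x₃ + m)) (by ring) (by linear_combination e1) (by ring)]
    exact hlast

/-- two points which are not opposite lie on a line -/
theorem exists_line (hb : b ≠ 0) {x₁ y₁ x₂ y₂ : K} (h₁ : OnCurve b K x₁ y₁)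
    (h₂ : OnCurve b K x₂ y₂) (hne : mk b x₁ y₁ + mk b x₂ y₂ ≠ 0) :
    ∃ l m x₃ : K, x₁ + x₂ + x₃ = l ^ 2 ∧
      x₁ * x₂ + x₁ * x₃ + x₂ * x₃ = algebraMap ℚ K b - 2 * l * m ∧ x₁ * x₂ * x₃ = m ^ 2 ∧
      y₁ = l * x₁ + m ∧ y₂ = l * x₂ + m := by
  have := charZero_of_algebra K
  rw [OnCurve] at h₁ h₂
  by_cases hx : x₁ = x₂
  · subst hx
    have hy : y₁ = y₂ := by
      have h3 : (y₁ - y₂) * (y₁ + y₂) = 0 := by linear_combination h₁ - h₂
      rcases mul_eq_zero.1 h3 with h | h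
      · linear_combination h
      · exfalso
        apply hne
        have h4 : y₁ = -y₂ := by linear_combination h
        rw [h4, ← neg_mk hb h₂, neg_add_cancel]
    subst hy
    have hy : y₁ ≠ 0 := by
      intro hy
      apply hne
      have := neg_mk hb h₁
      rw [hy, neg_zero] at this
      rw [hy]
      nth_rewrite 1 [← this]
      exact neg_add_cancel _
    have hy2 : 2 * y₁ ≠ 0 := mul_ne_zero two_ne_zero hy
    obtain ⟨l, hl⟩ : ∃ l : K, l * (2 * y₁) = 3 * x₁ ^ 2 + algebraMap ℚ K b :=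
      ⟨_, div_mul_cancel₀ _ hy2⟩
    refine ⟨l, y₁ - l * x₁, l ^ 2 - x₁ - x₁, by ring, ?_, ?_, by ring, by ring⟩
    · linear_combination hl
    · linear_combination x₁ * hl - h₁
  · have hne' : x₁ - x₂ ≠ 0 := sub_ne_zero.2 hx
    obtain ⟨l, hl⟩ : ∃ l : K, l * (x₁ - x₂) = y₁ - y₂ := ⟨_, div_mul_cancel₀ _ hne'⟩
    have key : x₁ ^ 2 + x₁ * x₂ + x₂ ^ 2 - l ^ 2 * (x₁ + x₂) +
        (algebraMap ℚ K b - 2 * l * (y₁ - l * x₁)) = 0 := by
      apply mul_left_cancel₀ hne'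
      have hy2 : y₂ = y₁ - l * (x₁ - x₂) := by linear_combination hl
      rw [hy2] at h₂
      linear_combination h₂ - h₁
    refine ⟨l, y₁ - l * x₁, l ^ 2 - x₁ - x₂, by ring, ?_, ?_, by ring, by linear_combination hl⟩
    · linear_combination -key
    · linear_combination -h₁ - x₁ * key

end Line

section Iso

variable {b b' : ℚ} {K : Type} [Field K] [Algebra ℚ K]

theorem iso_zero : isoF b b' (0 : Pt b K) = 0 := by
  rw [isoF, if_pos (xc_zero)]

theorem iso_T (hb : b ≠ 0) : isoF b b' (T b : Pt b K) = 0 := by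
  rw [isoF, if_pos (xc_T hb)]

theorem iso_mk (hb : b ≠ 0) {x y : K} (h : OnCurve b K x y) (hx : x ≠ 0) :
    isoF b b' (mk b x y) = mk b' (y ^ 2 / x ^ 2) (y * (algebraMap ℚ K b - x ^ 2) / x ^ 2) := by
  rw [isoF, xc_mk b hb h, yc_mk b hb h, if_neg hx]

theorem iso_of (P : Pt b K) (hx : xc b P ≠ 0) :
    isoF b b' P = mk b' (yc b P ^ 2 / xc b P ^ 2)
      (yc b P * (algebraMap ℚ K b - xc b P ^ 2) / xc b P ^ 2) := by
  rw [isoF, if_neg hx]

theorem onCurve_iso (hb' : b' = -4 * b) {x y : K} (h : OnCurve b K x y) (hx : x ≠ 0) :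
    OnCurve b' K (y ^ 2 / x ^ 2) (y * (algebraMap ℚ K b - x ^ 2) / x ^ 2) := by
  rw [OnCurve] at h ⊢
  have hb2 : algebraMap ℚ K b' = -4 * algebraMap ℚ K b := by
    rw [hb', map_mul, map_neg, map_ofNat]
  rw [hb2]
  have e : y ^ 2 / x ^ 2 = x + algebraMap ℚ K b / x := by
    rw [h]
    field_simp
  have e2 : (y * (algebraMap ℚ K b - x ^ 2) / x ^ 2) ^ 2 =
      (y ^ 2 / x ^ 2) * ((algebraMap ℚ K b - x ^ 2) / x) ^ 2 := by
    field_simp
  rw [e2, e]
  field_simp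
  ring

theorem iso_ne_zero (hb : b ≠ 0) (hb' : b' = -4 * b) {P : Pt b K} (hx : xc b P ≠ 0) :
    isoF b b' P ≠ 0 := by
  have h0 : P ≠ 0 := by
    rintro rfl
    exact hx rfl
  have hb'0 : b' ≠ 0 := by
    rw [hb']
    exact mul_ne_zero (by norm_num) hb
  rw [iso_of P hx]
  exact mk_ne_zero b' hb'0 (onCurve_iso hb' (onCurve_xy b h0) hx)

theorem bprime_ne_zero (hb : b ≠ 0) (hb' : b' = -4 * b) : b' ≠ 0 := by
  rw [hb']
  exact mul_ne_zero (by norm_num) hb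

theorem xc_iso_div (hb : b ≠ 0) (hb' : b' = -4 * b) {P : Pt b K} (hx : xc b P ≠ 0) :
    xc b' (isoF b b' P) = yc b P ^ 2 / xc b P ^ 2 := by
  have h0 : P ≠ 0 := by
    rintro rfl
    exact hx rfl
  rw [iso_of P hx, xc_mk b' (bprime_ne_zero hb hb') (onCurve_iso hb' (onCurve_xy b h0) hx)]

theorem yc_iso (hb : b ≠ 0) (hb' : b' = -4 * b) {P : Pt b K} (hx : xc b P ≠ 0) :
    yc b' (isoF b b' P) = yc b P * (algebraMap ℚ K b - xc b P ^ 2) / xc b P ^ 2 := by
  have h0 : P ≠ 0 := by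
    rintro rfl
    exact hx rfl
  rw [iso_of P hx, yc_mk b' (bprime_ne_zero hb hb') (onCurve_iso hb' (onCurve_xy b h0) hx)]

theorem xc_iso_add (hb : b ≠ 0) (hb' : b' = -4 * b) {P : Pt b K} (hx : xc b P ≠ 0) :
    xc b' (isoF b b' P) = xc b P + algebraMap ℚ K b / xc b P := by
  have h0 : P ≠ 0 := by
    rintro rfl
    exact hx rfl
  rw [xc_iso_div hb hb' hx]
  have h := onCurve_xy b h0
  rw [OnCurve] at h
  rw [h]
  field_simp

theorem iso_neg (hb : b ≠ 0) (hb' : b' = -4 * b) (P : Pt b K) :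
    isoF b b' (-P) = -isoF b b' P := by
  by_cases hx : xc b P = 0
  · rw [isoF, if_pos (by rw [xc_neg hb, hx]), isoF, if_pos hx, neg_zero]
  · have hx' : xc b (-P) ≠ 0 := by rwa [xc_neg hb]
    have h0 := iso_ne_zero hb hb' hx
    have h0' := iso_ne_zero hb hb' hx'
    have hb0 := bprime_ne_zero hb hb'
    refine ext_xy h0' (neg_ne_zero.2 h0) ?_ ?_
    · rw [xc_neg hb0, xc_iso_div hb hb' hx, xc_iso_div hb hb' hx', xc_neg hb, yc_neg hb]
      ring
    · rw [yc_neg hb0, yc_iso hb hb' hx, yc_iso hb hb' hx', xc_neg hb, yc_neg hb]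
      ring

theorem iso_add_T (hb : b ≠ 0) (hb' : b' = -4 * b) (P : Pt b K) :
    isoF b b' (P + T b) = isoF b b' P := by
  by_cases hx : xc b P = 0
  · rcases (xc_eq_zero hb (P := P)).1 hx with rfl | rfl
    · rw [zero_add, iso_T hb, iso_zero]
    · rw [T_add_T hb, iso_T hb, iso_zero]
  · have hx' : xc b (P + T b) ≠ 0 := by
      rw [xc_add_T hb hx]
      exact div_ne_zero (bK_ne_zero hb) hx
    have h0 := iso_ne_zero hb hb' hx
    have h0' := iso_ne_zero hb hb' hx'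
    have hbK : algebraMap ℚ K b ≠ 0 := bK_ne_zero hb
    refine ext_xy h0' h0 ?_ ?_
    · rw [xc_iso_div hb hb' hx, xc_iso_div hb hb' hx', xc_add_T hb hx, yc_add_T hb hx]
      field_simp
    · rw [yc_iso hb hb' hx, yc_iso hb hb' hx', xc_add_T hb hx, yc_add_T hb hx]
      field_simp
      ring

/-- the generic case -/
theorem iso_line (hb : b ≠ 0) (hb' : b' = -4 * b) {l m x₁ x₂ x₃ : K}
    (e1 : x₁ + x₂ + x₃ = l ^ 2)
    (e2 : x₁ * x₂ + x₁ * x₃ + x₂ * x₃ = algebraMap ℚ K b - 2 * l * m)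
    (e3 : x₁ * x₂ * x₃ = m ^ 2) (hx₁ : x₁ ≠ 0) (hx₂ : x₂ ≠ 0) (hx₃ : x₃ ≠ 0) :
    isoF b b' (mk b x₁ (l * x₁ + m)) + isoF b b' (mk b x₂ (l * x₂ + m)) +
      isoF b b' (mk b x₃ (l * x₃ + m)) = 0 := by
  have hm : m ≠ 0 := by
    rintro rfl
    have : x₁ * x₂ * x₃ = 0 := by rw [e3]; ring
    simp_all
  have h1 : OnCurve b K x₁ (l * x₁ + m) := by
    rw [OnCurve]
    linear_combination -x₁ ^ 2 * e1 + x₁ * e2 - e3
  have h2 : OnCurve b K x₂ (l * x₂ + m) := by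
    rw [OnCurve]
    linear_combination -x₂ ^ 2 * e1 + x₂ * e2 - e3
  have h3 : OnCurve b K x₃ (l * x₃ + m) := by
    rw [OnCurve]
    linear_combination -x₃ ^ 2 * e1 + x₃ * e2 - e3
  have hb2 : algebraMap ℚ K b' = -4 * algebraMap ℚ K b := by
    rw [hb', map_mul, map_neg, map_ofNat]
  rw [iso_mk hb h1 hx₁, iso_mk hb h2 hx₂, iso_mk hb h3 hx₃]
  set β := algebraMap ℚ K b with hβ
  have hY : ∀ x : K, x ≠ 0 → OnCurve b K x (l * x + m) →
      (l * x + m) * (β - x ^ 2) / x ^ 2 =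
        ((β - l * m) / m) * ((l * x + m) ^ 2 / x ^ 2) + (-(β * l ^ 2 + m ^ 2) / m) := by
    intro x hx h
    rw [OnCurve, ← hβ] at h
    field_simp
    linear_combination l * m * h
  rw [hY x₁ hx₁ h1, hY x₂ hx₂ h2, hY x₃ hx₃ h3]
  have hX : ∀ x : K, x ≠ 0 → (l * x + m) ^ 2 / x ^ 2 = (l + m * x⁻¹) ^ 2 := by
    intro x hx
    field_simp
  rw [hX x₁ hx₁, hX x₂ hx₂, hX x₃ hx₃]
  have w1 : x₁⁻¹ + x₂⁻¹ + x₃⁻¹ = (β - 2 * l * m) / m ^ 2 := by
    rw [← e2, ← e3]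
    field_simp
    ring
  have w2 : x₁⁻¹ * x₂⁻¹ + x₁⁻¹ * x₃⁻¹ + x₂⁻¹ * x₃⁻¹ = l ^ 2 / m ^ 2 := by
    rw [← e1, ← e3]
    field_simp
    ring
  have w3 : x₁⁻¹ * x₂⁻¹ * x₃⁻¹ = 1 / m ^ 2 := by
    rw [← e3]
    field_simp
  set w₁ := x₁⁻¹
  set w₂ := x₂⁻¹
  set w₃ := x₃⁻¹
  have s1 : (l + m * w₁) + (l + m * w₂) + (l + m * w₃) = (β + l * m) / m := by
    have : (l + m * w₁) + (l + m * w₂) + (l + m * w₃) = 3 * l + m * (w₁ + w₂ + w₃) := by ring
    rw [this, w1]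
    field_simp
    ring
  have s2 : (l + m * w₁) * (l + m * w₂) + (l + m * w₁) * (l + m * w₃) +
      (l + m * w₂) * (l + m * w₃) = 2 * l * β / m := by
    have : (l + m * w₁) * (l + m * w₂) + (l + m * w₁) * (l + m * w₃) +
      (l + m * w₂) * (l + m * w₃) = 3 * l ^ 2 + 2 * l * m * (w₁ + w₂ + w₃) +
        m ^ 2 * (w₁ * w₂ + w₁ * w₃ + w₂ * w₃) := by ring
    rw [this, w1, w2]
    field_simp
    ring
  have s3 : (l + m * w₁) * (l + m * w₂) * (l + m * w₃) = (β * l ^ 2 + m ^ 2) / m := by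
    have : (l + m * w₁) * (l + m * w₂) * (l + m * w₃) = l ^ 3 + l ^ 2 * m * (w₁ + w₂ + w₃) +
        l * m ^ 2 * (w₁ * w₂ + w₁ * w₃ + w₂ * w₃) + m ^ 3 * (w₁ * w₂ * w₃) := by ring
    rw [this, w1, w2, w3]
    field_simp
    ring
  set z₁ := l + m * w₁
  set z₂ := l + m * w₂
  set z₃ := l + m * w₃
  apply line_sum (bprime_ne_zero hb hb')
  · have : z₁ ^ 2 + z₂ ^ 2 + z₃ ^ 2 = (z₁ + z₂ + z₃) ^ 2 - 2 * (z₁ * z₂ + z₁ * z₃ + z₂ * z₃) := by
      ring
    rw [this, s1, s2]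
    field_simp
    ring
  · have : z₁ ^ 2 * z₂ ^ 2 + z₁ ^ 2 * z₃ ^ 2 + z₂ ^ 2 * z₃ ^ 2 =
        (z₁ * z₂ + z₁ * z₃ + z₂ * z₃) ^ 2 - 2 * (z₁ + z₂ + z₃) * (z₁ * z₂ * z₃) := by
      ring
    rw [this, s1, s2, s3, hb2]
    field_simp
    ring
  · have : z₁ ^ 2 * z₂ ^ 2 * z₃ ^ 2 = (z₁ * z₂ * z₃) ^ 2 := by ring
    rw [this, s3]
    field_simp

theorem EC_iso_add (b b' : ℚ) (hb : b ≠ 0) (hb' : b' = -4 * b) (K : Type) [Field K] [Algebra ℚ K]
    (P Q : Pt b K) : isoF b b' (P + Q) = isoF b b' P + isoF b b' Q := by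
  by_cases hP : xc b P = 0
  · rcases (xc_eq_zero hb (P := P)).1 hP with rfl | rfl
    · rw [zero_add, iso_zero, zero_add]
    · rw [add_comm, iso_add_T hb hb', iso_T hb, zero_add]
  by_cases hQ : xc b Q = 0
  · rcases (xc_eq_zero hb (P := Q)).1 hQ with rfl | rfl
    · rw [add_zero, iso_zero, add_zero]
    · rw [iso_add_T hb hb', iso_T hb, add_zero]
  by_cases hPQ : xc b (P + Q) = 0
  · rcases (xc_eq_zero hb (P := P + Q)).1 hPQ with h | h
    · have hQ' : Q = -P := (neg_eq_of_add_eq_zero_right h).symm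
      rw [h, hQ', iso_neg hb hb', add_neg_cancel, iso_zero]
    · have hQ' : Q = -P + T b := by
        rw [← h]
        abel
      rw [h, iso_T hb, hQ', iso_add_T hb hb', iso_neg hb hb', add_neg_cancel]
  · have hP0 : P ≠ 0 := by
      rintro rfl
      exact hP rfl
    have hQ0 : Q ≠ 0 := by
      rintro rfl
      exact hQ rfl
    have hPQ0 : P + Q ≠ 0 := by
      intro h
      rw [h] at hPQ
      exact hPQ rfl
    have h1 := onCurve_xy b hP0
    have h2 := onCurve_xy b hQ0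
    have hne : mk b (xc b P) (yc b P) + mk b (xc b Q) (yc b Q) ≠ 0 := by
      rwa [mk_xy b hP0, mk_xy b hQ0]
    obtain ⟨l, m, x₃, e1, e2, e3, hy1, hy2⟩ := exists_line hb h1 h2 hne
    have hs := line_sum hb e1 e2 e3
    rw [← hy1, ← hy2, mk_xy b hP0, mk_xy b hQ0] at hs
    have h3 : OnCurve b K x₃ (l * x₃ + m) := by
      rw [OnCurve]
      linear_combination -x₃ ^ 2 * e1 + x₃ * e2 - e3
    have hP3 : P + Q = -mk b x₃ (l * x₃ + m) := eq_neg_of_add_eq_zero_left hs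
    have hx3 : x₃ ≠ 0 := by
      intro h
      apply hPQ
      rw [hP3, xc_neg hb, xc_mk b hb h3, h]
    have hi := iso_line (b' := b') hb hb' e1 e2 e3 hP hQ hx3
    rw [← hy1, ← hy2, mk_xy b hP0, mk_xy b hQ0] at hi
    rw [hP3, iso_neg hb hb']
    exact (eq_neg_of_add_eq_zero_left hi).symm

theorem EC_iso_ker (b b' : ℚ) (hb : b ≠ 0) (hb' : b' = -4 * b) (K : Type) [Field K] [Algebra ℚ K]
    (P : Pt b K) : isoF b b' P = 0 ↔ P = 0 ∨ P = T b := by
  rw [← xc_eq_zero hb]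
  constructor
  · intro h
    by_contra hx
    exact iso_ne_zero hb hb' hx h
  · intro hx
    rw [isoF, if_pos hx]

theorem EC_iso_natural (b b' : ℚ) (hb : b ≠ 0) (hb' : b' = -4 * b) (K : Type) [Field K]
    [Algebra ℚ K] (K' : Type) [Field K'] [Algebra ℚ K'] (f : K →ₐ[ℚ] K') (P : Pt b K) :
    isoF b b' (mapF b f P) = mapF b' f (isoF b b' P) := by
  by_cases hx : xc b P = 0
  · rw [isoF, if_pos (by rw [xc_mapF, hx, map_zero]), isoF, if_pos hx, mapF_zero]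
  · have hx' : xc b (mapF b f P) ≠ 0 := by
      rw [xc_mapF]
      exact (map_ne_zero f).2 hx
    refine ext_xy (iso_ne_zero hb hb' hx') (mapF_ne_zero.2 (iso_ne_zero hb hb' hx)) ?_ ?_
    · rw [xc_mapF, xc_iso_div hb hb' hx, xc_iso_div hb hb' hx', xc_mapF, yc_mapF]
      simp
    · rw [yc_mapF, yc_iso hb hb' hx, yc_iso hb hb' hx', xc_mapF, yc_mapF]
      simp

theorem EC_iso_lift (b b' : ℚ) (hb : b ≠ 0) (hb' : b' = -4 * b) (K : Type) [Field K]
    [Algebra ℚ K] (Q : Pt b' K) (hQ : xc b' Q ≠ 0) (z : K) (hz : z ^ 2 = xc b' Q) :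
    ∃ P : Pt b K, isoF b b' P = Q ∧ xc b P = (xc b' Q + yc b' Q / z) / 2 := by
  have := charZero_of_algebra K
  have hQ0 : Q ≠ 0 := by
    rintro rfl
    exact hQ rfl
  have hb2 : algebraMap ℚ K b' = -4 * algebraMap ℚ K b := by
    rw [hb', map_mul, map_neg, map_ofNat]
  have hq := onCurve_xy b' hQ0
  rw [OnCurve, hb2] at hq
  have hz0 : z ≠ 0 := by
    rintro rfl
    apply hQ
    rw [← hz]
    ring
  set X := xc b' Q with hX
  set Y := yc b' Q with hY
  set β := algebraMap ℚ K b with hβ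
  have hbK : β ≠ 0 := bK_ne_zero hb
  obtain ⟨x, hx⟩ : ∃ x : K, x = (X + Y / z) / 2 := ⟨_, rfl⟩
  have hYz : (Y / z) ^ 2 = X ^ 2 - 4 * β := by
    rw [div_pow, hz, hq]
    field_simp
    ring
  have hxX : x ^ 2 - X * x + β = 0 := by
    have h2 : 2 * x = X + Y / z := by
      rw [hx]
      ring
    have h4 : (2 * x - X) ^ 2 = X ^ 2 - 4 * β := by
      rw [h2, ← hYz]
      ring
    have h5 : (4 : K) * (x ^ 2 - X * x + β) = 0 := by linear_combination h4
    exact (mul_eq_zero.1 h5).resolve_left (by norm_num)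
  have hx0 : x ≠ 0 := by
    rintro rfl
    apply hbK
    linear_combination hxX
  have hc : OnCurve b K x (-z * x) := by
    rw [OnCurve, ← hβ]
    linear_combination x ^ 2 * hz - x * hxX
  refine ⟨mk b x (-z * x), ?_, ?_⟩
  · have hxp : xc b (mk b x (-z * x)) ≠ 0 := by rwa [xc_mk b hb hc]
    refine ext_xy (iso_ne_zero hb hb' hxp) hQ0 ?_ ?_
    · rw [xc_iso_div hb hb' hxp, xc_mk b hb hc, yc_mk b hb hc, ← hX, ← hz]
      field_simp
    · rw [yc_iso hb hb' hxp, xc_mk b hb hc, yc_mk b hb hc, ← hY, ← hβ]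
      have h6 : Y = z * (2 * x - X) := by
        rw [hx]
        field_simp
        ring
      rw [h6]
      field_simp
      linear_combination -hxX
  · rw [xc_mk b hb hc, hx]

theorem EC_iso_surj (b b' : ℚ) (hb : b ≠ 0) (hb' : b' = -4 * b) (K : Type) [Field K]
    [Algebra ℚ K] [IsAlgClosed K] (Q : Pt b' K) : ∃ P : Pt b K, isoF b b' P = Q := by
  have hb0 := bprime_ne_zero hb hb'
  by_cases hQ : xc b' Q = 0
  · rcases (xc_eq_zero hb0 (P := Q)).1 hQ with rfl | rfl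
    · exact ⟨0, iso_zero⟩
    · obtain ⟨x, hx⟩ := IsAlgClosed.exists_pow_nat_eq (-algebraMap ℚ K b) (n := 2) (by norm_num)
      have hbK : algebraMap ℚ K b ≠ 0 := bK_ne_zero hb
      have hx0 : x ≠ 0 := by
        rintro rfl
        apply hbK
        linear_combination hx
      have hc : OnCurve b K x 0 := by
        rw [OnCurve]
        linear_combination -x * hx
      refine ⟨mk b x 0, ?_⟩
      rw [iso_mk hb hc hx0, T]
      congr 1
      · simp
      · simp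
  · obtain ⟨z, hz⟩ := IsAlgClosed.exists_pow_nat_eq (xc b' Q) (n := 2) (by norm_num)
    obtain ⟨P, hP, -⟩ := EC_iso_lift b b' hb hb' K Q hQ z hz
    exact ⟨P, hP⟩

end Iso

section

variable {b b' : ℚ} (hb : b ≠ 0) (hb' : b' = -4 * b) {K : Type} [Field K] [Algebra ℚ K]

include hb'

theorem iso_onCurve {x y : K} (h : OnCurve b K x y) (hx : x ≠ 0) :
    OnCurve b' K (y ^ 2 / x ^ 2) (y * (algebraMap ℚ K b - x ^ 2) / x ^ 2) :=
  onCurve_iso hb' h hx

include hb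

theorem iso_add (P Q : Pt b K) : isoF b b' (P + Q) = isoF b b' P + isoF b b' Q :=
  EC_iso_add b b' hb hb' K P Q

theorem iso_ker (P : Pt b K) : isoF b b' P = 0 ↔ P = 0 ∨ P = T b :=
  EC_iso_ker b b' hb hb' K P

theorem iso_natural {K' : Type} [Field K'] [Algebra ℚ K'] (f : K →ₐ[ℚ] K') (P : Pt b K) :
    isoF b b' (mapF b f P) = mapF b' f (isoF b b' P) :=
  EC_iso_natural b b' hb hb' K K' f P

theorem xc_iso {P : Pt b K} (hP : xc b P ≠ 0) :
    xc b' (isoF b b' P) = (yc b P / xc b P) ^ 2 := by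
  rw [xc_iso_div hb hb' hP, div_pow]

theorem iso_lift (Q : Pt b' K) (hQ : xc b' Q ≠ 0) (z : K) (hz : z ^ 2 = xc b' Q) :
    ∃ P : Pt b K, isoF b b' P = Q ∧ xc b P = (xc b' Q + yc b' Q / z) / 2 :=
  EC_iso_lift b b' hb hb' K Q hQ z hz

/-- the preimages of `T` are the points `(z, 0)` with `z^2 = -b` -/
theorem iso_eq_T (P : Pt b K) : isoF b b' P = T b' ↔ P ≠ 0 ∧ xc b P ^ 2 = -algebraMap ℚ K b := by
  have hb0 := bprime_ne_zero hb hb'
  have hbK : algebraMap ℚ K b ≠ 0 := bK_ne_zero hb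
  constructor
  · intro h
    have hx : xc b P ≠ 0 := by
      intro hx
      have h0 : isoF b b' P = 0 := by rw [isoF, if_pos hx]
      exact T_ne_zero hb0 (h.symm.trans h0)
    have hP : P ≠ 0 := by
      rintro rfl
      exact hx rfl
    refine ⟨hP, ?_⟩
    have h1 : xc b' (isoF b b' P) = 0 := by rw [h, xc_T hb0]
    rw [xc_iso_add hb hb' hx] at h1
    field_simp at h1
    linear_combination h1
  · rintro ⟨hP, h⟩
    have hx : xc b P ≠ 0 := by
      intro hx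
      apply hbK
      rw [hx] at h
      linear_combination h
    have h1 : xc b' (isoF b b' P) = 0 := by
      rw [xc_iso_add hb hb' hx]
      field_simp
      linear_combination h
    rcases (xc_eq_zero hb0).1 h1 with h2 | h2
    · exact absurd h2 (iso_ne_zero hb hb' hx)
    · exact h2

theorem iso_surj [IsAlgClosed K] (Q : Pt b' K) : ∃ P : Pt b K, isoF b b' P = Q :=
  EC_iso_surj b b' hb hb' K Q

end

end BB37
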