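import Pool.Agent.Lib.MP_bb37eb_nt.DE.Down

/-! Algebraicity of kernel points, fibres and shifts of a tower. -/

namespace BB37

section

variable (b : ℕ → ℚ) (K : Type) [Field K] [Algebra ℚ K]

theorem down_succ (d : ℕ) (P : Pt (b 0) K) :
    downF b K (d + 1) P = isoF (b d) (b (d + 1)) (downF b K d P) := rfl

theorem down_shift (d : ℕ) (P : Pt (b 0) K) :
    downF b K (d + 1) P = downF (fun j => b (j + 1)) K d (isoF (b 0) (b 1) P) := by
  induction d with
  | zero => rfl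
  | succ d ih =>
    rw [down_succ, ih]
    rfl

variable {b K}

theorem Tower.shift (hb : Tower b) : Tower (fun j => b (j + 1)) :=
  ⟨hb.ne' 1, fun d => hb.step (d + 1)⟩

theorem down_fibre_finite (hb : Tower b) (d : ℕ) (Q : Pt (b d) K) :
    {P | downF b K d P = Q}.Finite := by
  by_cases h : ∃ A, downF b K d A = Q
  · obtain ⟨A, hA⟩ := h
    refine ((ker_finite hb d).image fun P => A + P).subset ?_
    intro P hP
    refine ⟨P - A, ?_, add_sub_cancel A P⟩
    change downF b K d (P - A) = 0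
    rw [down_sub hb, hA, hP, sub_self]
  · convert Set.finite_empty
    ext P
    constructor
    · intro hP
      exact h ⟨P, hP⟩
    · intro hP
      exact hP.elim

theorem iso_algebraic {b b' : ℚ} (hb : b ≠ 0) (hb' : b' = -4 * b) {K' : Type} [Field K']
    [Algebra ℚ K'] [IsAlgClosed K] (f : K →ₐ[ℚ] K') (P : Pt b K') (Q₀ : Pt b' K)
    (h : isoF b b' P = mapF b' f Q₀) : ∃ P₀ : Pt b K, isoF b b' P₀ = Q₀ ∧ mapF b f P₀ = P := by
  obtain ⟨R, hR⟩ := iso_surj hb hb' Q₀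
  have h1 : isoF b b' (P - mapF b f R) = 0 := by
    rw [sub_eq_add_neg, iso_add hb hb', iso_neg hb hb', h,
      iso_natural hb hb', hR, add_neg_cancel]
  rw [iso_ker hb hb'] at h1
  rcases h1 with h1 | h1
  · exact ⟨R, hR, (sub_eq_zero.1 h1).symm⟩
  · refine ⟨R + T b, by rw [iso_add_T hb hb', hR], ?_⟩
    rw [mapF_add, mapF_T hb, ← h1]
    abel

/-- a point which maps to a point over an algebraically closed subfield is defined over this
subfield -/
theorem down_algebraic (hb : Tower b) (d : ℕ) {K' : Type} [Field K'] [Algebra ℚ K']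
    [IsAlgClosed K] (f : K →ₐ[ℚ] K') (P : Pt (b 0) K') (Q₀ : Pt (b d) K)
    (h : downF b K' d P = mapF (b d) f Q₀) :
    ∃ P₀ : Pt (b 0) K, downF b K d P₀ = Q₀ ∧ mapF (b 0) f P₀ = P := by
  induction d with
  | zero => exact ⟨Q₀, rfl, h.symm⟩
  | succ d ih =>
    obtain ⟨R, hR, hR'⟩ := iso_algebraic (hb.ne' d) (hb.step d) f (downF b K' d P) Q₀ h
    obtain ⟨P₀, h1, h2⟩ := ih R hR'.symm
    exact ⟨P₀, by rw [down_succ, h1, hR], h2⟩

/-- kernel points are algebraic -/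
theorem ker_alg (hb : Tower b) (d : ℕ) (K : Type) [Field K] [Algebra ℚ K]
    (P : Pt (b 0) (Kb K)) (hP : downF b (Kb K) d P = 0) :
    ∃ P₀ : Pt (b 0) (Kb ℚ), downF b (Kb ℚ) d P₀ = 0 ∧ mapF (b 0) (emb ℚ K) P₀ = P := by
  apply down_algebraic hb d (emb ℚ K) P 0
  rw [hP, mapF_zero]

end

theorem EC_ker_algebraic (b : ℕ → ℚ) (hb0 : b 0 ≠ 0) (hb : ∀ d, b (d + 1) = -4 * b d) (d : ℕ)
    (K : Type) [Field K] [Algebra ℚ K] (P : Pt (b 0) (Kb K)) (hP : downF b (Kb K) d P = 0) :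
    ∃ P₀ : Pt (b 0) (Kb ℚ), downF b (Kb ℚ) d P₀ = 0 ∧ mapF (b 0) (emb ℚ K) P₀ = P :=
  ker_alg ⟨hb0, hb⟩ d K P hP

end BB37
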