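import Pool.Agent.Lib.MP_bb37eb_nt.EC.SR
import Pool.Agent.Lib.MP_bb37eb_nt.EC.Ker

/-! Functions on the affine curve are determined by their values. -/

namespace BB37

private theorem vanish_aux {Ω : Type} [Field Ω] [IsAlgClosed Ω] [CharZero Ω] (β : Ω)
    (ψ : Polynomial Ω) (hψ : ψ ≠ 0) (p q : Polynomial Ω)
    (h : ∀ u v : Ω, v ^ 2 = u ^ 3 + β * u → ψ.eval u ≠ 0 → p.eval u + q.eval u * v = 0) :
    p = 0 ∧ q = 0 := by
  have key : ∀ u : Ω, ψ.eval u ≠ 0 → p.eval u = 0 ∧ q.eval u * (u ^ 3 + β * u) = 0 := by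
    intro u hu
    obtain ⟨v, hv⟩ := IsAlgClosed.exists_pow_nat_eq (u ^ 3 + β * u) (two_pos)
    have h1 := h u v hv hu
    have h2 := h u (-v) (by rw [neg_sq, hv]) hu
    have h3 : (2 : Ω) * p.eval u = 0 := by linear_combination h1 + h2
    have h4 : p.eval u = 0 := (mul_eq_zero.1 h3).resolve_left two_ne_zero
    refine ⟨h4, ?_⟩
    rw [← hv]
    linear_combination v * h1 - v * h4
  have hX : (Polynomial.X ^ 3 + Polynomial.C β * Polynomial.X : Polynomial Ω) ≠ 0 := by
    intro hc
    have h1 := congrArg (fun r => Polynomial.coeff r 3) hc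
    simp at h1
  constructor
  · have h1 : p * ψ = 0 := by
      apply Polynomial.funext
      intro u
      rw [Polynomial.eval_mul, Polynomial.eval_zero]
      by_cases hu : ψ.eval u = 0
      · rw [hu, mul_zero]
      · rw [(key u hu).1, zero_mul]
    exact (mul_eq_zero.1 h1).resolve_right hψ
  · have h1 : q * (Polynomial.X ^ 3 + Polynomial.C β * Polynomial.X) * ψ = 0 := by
      apply Polynomial.funext
      intro u
      rw [Polynomial.eval_mul, Polynomial.eval_mul, Polynomial.eval_zero, Polynomial.eval_add,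
        Polynomial.eval_mul, Polynomial.eval_pow, Polynomial.eval_X, Polynomial.eval_C]
      by_cases hu : ψ.eval u = 0
      · rw [hu, mul_zero]
      · rw [(key u hu).2, zero_mul]
    exact (mul_eq_zero.1 ((mul_eq_zero.1 h1).resolve_right hψ)).resolve_right hX

/-- Two polynomials `p, q` with `p(x) + q(x) y = 0` at all points of the curve over an
algebraically closed field of characteristic zero vanish. Proof. For every `u` there is `v` with
`v^2 = u^3 + b u` (`IsAlgClosed.exists_pow_nat_eq`), and `(u, v)`, `(u, -v)` are points, so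
`p(u) + q(u) v = 0 = p(u) - q(u) v`, hence `p(u) = 0` and `q(u) v = 0`. So `p` vanishes
everywhere and `q * (X^3 + b X)` vanishes everywhere; `Polynomial.funext` (infinite field). -/
theorem pq_unique {b : ℚ} (hb : b ≠ 0) (Ω : Type) [Field Ω] [Algebra ℚ Ω] [IsAlgClosed Ω]
    (p q : Polynomial Ω)
    (h : ∀ a : Pt b Ω, a ≠ 0 → p.eval (xc b a) + q.eval (xc b a) * yc b a = 0) :
    p = 0 ∧ q = 0 := by
  have : CharZero Ω := charZero_of_algebra Ω
  refine vanish_aux (algebraMap ℚ Ω b) 1 one_ne_zero p q ?_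
  intro u v huv _
  have hc : OnCurve b Ω u v := huv
  have h1 := h (mk b u v) (mk_ne_zero b hb hc)
  rwa [xc_mk b hb hc, yc_mk b hb hc] at h1

/-- normal form in the ring `k[x, y, 1/psi(x)]`: `psi(x)^n F = p(x) + q(x) y`. Proof: `piS` is
surjective; induction on the polynomial in three variables (`MvPolynomial.induction_on`), using
`s_eq` and `s_inv`. -/
theorem SR_normal (k : Type) [Field k] (β : k) (ψ : Polynomial k) (F : SR k β ψ) :
    ∃ (n : ℕ) (p q : Polynomial k), Polynomial.aeval (sx k β ψ) ψ ^ n * F =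
      Polynomial.aeval (sx k β ψ) p + Polynomial.aeval (sx k β ψ) q * sy k β ψ := by
  obtain ⟨P, rfl⟩ := piS_surj k β ψ F
  induction P using MvPolynomial.induction_on with
  | C c =>
    refine ⟨0, Polynomial.C c, 0, ?_⟩
    have h3 : piS k β ψ (MvPolynomial.C c) = algebraMap k (SR k β ψ) c := (piS k β ψ).commutes c
    rw [h3, pow_zero, one_mul, Polynomial.aeval_C, map_zero, zero_mul, add_zero]
  | add P Q hP hQ =>
    obtain ⟨n, p, q, h1⟩ := hP
    obtain ⟨m, p', q', h2⟩ := hQ
    refine ⟨n + m, ψ ^ m * p + ψ ^ n * p', ψ ^ m * q + ψ ^ n * q', ?_⟩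
    rw [map_add, map_add, map_add, map_mul, map_mul, map_mul, map_mul, map_pow, map_pow, pow_add]
    linear_combination (Polynomial.aeval (sx k β ψ) ψ ^ m) * h1 +
      (Polynomial.aeval (sx k β ψ) ψ ^ n) * h2
  | mul_X P i hP =>
    obtain ⟨n, p, q, h1⟩ := hP
    fin_cases i
    · refine ⟨n, p * Polynomial.X, q * Polynomial.X, ?_⟩
      have e : piS k β ψ (P * MvPolynomial.X 0) = piS k β ψ P * sx k β ψ := by
        rw [map_mul]
        rfl
      change Polynomial.aeval (sx k β ψ) ψ ^ n * piS k β ψ (P * MvPolynomial.X 0) = _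
      rw [e, map_mul, map_mul, Polynomial.aeval_X]
      linear_combination (sx k β ψ) * h1
    · refine ⟨n, q * (Polynomial.X ^ 3 + Polynomial.C β * Polynomial.X), p, ?_⟩
      have e : piS k β ψ (P * MvPolynomial.X 1) = piS k β ψ P * sy k β ψ := by
        rw [map_mul]
        rfl
      change Polynomial.aeval (sx k β ψ) ψ ^ n * piS k β ψ (P * MvPolynomial.X 1) = _
      rw [e, map_mul, map_add, map_mul, map_pow, Polynomial.aeval_X, Polynomial.aeval_C,
        ← s_eq k β ψ]
      linear_combination (sy k β ψ) * h1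
    · refine ⟨n + 1, p, q, ?_⟩
      have e : piS k β ψ (P * MvPolynomial.X 2) = piS k β ψ P * sw k β ψ := by
        rw [map_mul]
        rfl
      change Polynomial.aeval (sx k β ψ) ψ ^ (n + 1) * piS k β ψ (P * MvPolynomial.X 2) = _
      rw [e, ← h1]
      have h2 := s_inv k β ψ
      linear_combination (Polynomial.aeval (sx k β ψ) ψ ^ n * piS k β ψ P) * h2

/-- Elements of the ring are determined by their values at the points over an algebraically closed
field. Proof. Normal form. For every `u` in `Ω` with `psi(u) ≠ 0` (image of `psi` under `σ`) and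
`v^2 = u^3 + β u` the points `(u, v)` and `(u, -v)` give homomorphisms (`liftS`), so
`p(u) + q(u) v = 0 = p(u) - q(u) v`; hence `p * psi` and `q * psi * (X^3 + β X)` (mapped to `Ω`)
vanish everywhere, so `p = 0`, `q = 0` (`σ` is injective), `psi(x)^n F = 0` and `psi(x)` is a
unit (`s_unit`). -/
theorem SR_joint (k : Type) [Field k] (β : k) (ψ : Polynomial k) (hψ : ψ ≠ 0)
    (Ω : Type) [Field Ω] [IsAlgClosed Ω] [CharZero Ω] (σ : k →+* Ω) (F : SR k β ψ)
    (h : ∀ f : SR k β ψ →+* Ω, (∀ c, f (algebraMap k (SR k β ψ) c) = σ c) → f F = 0) : F = 0 := by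
  obtain ⟨n, p, q, hF⟩ := SR_normal k β ψ F
  have hev : ∀ (f : SR k β ψ →+* Ω), (∀ c, f (algebraMap k (SR k β ψ) c) = σ c) →
      ∀ r : Polynomial k, f (Polynomial.aeval (sx k β ψ) r) =
        (r.map σ).eval (f (sx k β ψ)) := by
    intro f hf r
    rw [Polynomial.aeval_def, Polynomial.hom_eval₂, Polynomial.eval_map]
    congr 1
    ext c
    exact hf c
  have hpq : p.map σ = 0 ∧ q.map σ = 0 := by
    refine vanish_aux (σ β) (ψ.map σ) ?_ (p.map σ) (q.map σ) ?_
    · exact (Polynomial.map_ne_zero_iff σ.injective).2 hψ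
    · intro u v huv hu
      have h2 : IsUnit (ψ.eval₂ σ u) := by
        rw [← Polynomial.eval_map]
        exact isUnit_iff_ne_zero.2 hu
      have hC := liftS_C k β ψ σ u v huv h2
      have hx := liftS_sx k β ψ σ u v huv h2
      have hy := liftS_sy k β ψ σ u v huv h2
      have h0 := h (liftS k β ψ σ u v huv h2) hC
      have h3 := congrArg (liftS k β ψ σ u v huv h2) hF
      rw [map_mul, h0, mul_zero, map_add, map_mul, hev _ hC p, hev _ hC q, hx, hy] at h3
      exact h3.symm
  have hp : p = 0 := (Polynomial.map_eq_zero_iff σ.injective).1 hpq.1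
  have hq : q = 0 := (Polynomial.map_eq_zero_iff σ.injective).1 hpq.2
  rw [hp, hq, map_zero, zero_mul, add_zero] at hF
  exact ((s_unit k β ψ).pow n).mul_right_eq_zero.1 hF

end BB37
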