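import Pool.Agent.Lib.MP_bb37eb_nt.EC.Emb
import Pool.Agent.Lib.MP_bb37eb_nt.EC.Joint

/-! The ring of functions on the top curve minus the kernel, and its homomorphisms to fields. -/

namespace BB37

open Polynomial

theorem onCurve_of_mk_ne {b : ℚ} {K : Type} [Field K] [Algebra ℚ K] {x y : K}
    (h : mk b x y ≠ 0) : OnCurve b K x y := by
  by_contra hc
  apply h
  rw [mk, dif_neg]
  intro hn
  exact hc (onCurve_of b hn)

namespace Ctx

variable {b : ℕ → ℚ} {d : ℕ} {L : Type} [Field L] [Algebra ℚ L] (C : Ctx b d L)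

open Classical in
/-- the nonzero kernel points -/
noncomputable def kerSet : Finset (Pt (b 0) L) :=
  (ker_finite C.tower (K := L) d).toFinset.erase 0

theorem mem_kerSet {P : Pt (b 0) L} : P ∈ C.kerSet ↔ P ≠ 0 ∧ downF b L d P = 0 := by
  classical
  rw [kerSet, Finset.mem_erase, Set.Finite.mem_toFinset]
  exact Iff.rfl

/-- the kernel polynomial -/
noncomputable def psi : L[X] := ∏ P ∈ C.kerSet, (X - Polynomial.C (xc (b 0) P))

theorem psi_ne_zero : C.psi ≠ 0 := by
  rw [psi, Finset.prod_ne_zero_iff]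
  intro P _
  exact X_sub_C_ne_zero _

theorem psi_eval {Ω : Type} [CommRing Ω] (τ : L →+* Ω) (u : Ω) :
    C.psi.eval₂ τ u = ∏ P ∈ C.kerSet, (u - τ (xc (b 0) P)) := by
  rw [psi, eval₂_finsetProd]
  refine Finset.prod_congr rfl fun P _ => ?_
  rw [eval₂_sub, eval₂_X, eval₂_C]

/-- the ring of functions on the top curve minus the kernel -/
abbrev S : Type := SR L (algebraMap ℚ L (b 0)) C.psi

/-- the coordinate `x` -/
noncomputable abbrev X0 : C.S := sx L (algebraMap ℚ L (b 0)) C.psi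

/-- the coordinate `y` -/
noncomputable abbrev Y0 : C.S := sy L (algebraMap ℚ L (b 0)) C.psi

/-- constants -/
noncomputable abbrev cst : L →+* C.S := algebraMap L C.S

section Hom

variable {C} {Ω : Type} [Field Ω] [Algebra ℚ Ω] (f : C.S →+* Ω)

/-- the embedding of constants given by a homomorphism -/
noncomputable def fL : L →ₐ[ℚ] Ω := (f.comp C.cst).toRatAlgHom

theorem fL_apply (c : L) : fL f c = f (C.cst c) := rfl

/-- the point given by a homomorphism -/
noncomputable def ptOf : Pt (b 0) Ω := BB37.mk (b 0) (f C.X0) (f C.Y0)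

theorem onCurve_f : OnCurve (b 0) Ω (f C.X0) (f C.Y0) := by
  have h := congrArg f (s_eq L (algebraMap ℚ L (b 0)) C.psi)
  rw [map_pow, map_add, map_mul, map_pow] at h
  rw [OnCurve, h]
  have h2 : f (algebraMap L C.S (algebraMap ℚ L (b 0))) = algebraMap ℚ Ω (b 0) :=
    (fL f).commutes (b 0)
  rw [h2]

theorem xc_ptOf : xc (b 0) (ptOf f) = f C.X0 := xc_mk (b 0) C.tower.ne (onCurve_f f)

theorem yc_ptOf : yc (b 0) (ptOf f) = f C.Y0 := yc_mk (b 0) C.tower.ne (onCurve_f f)

theorem ptOf_ne_zero : ptOf f ≠ 0 := mk_ne_zero (b 0) C.tower.ne (onCurve_f f)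

theorem psi_f : C.psi.eval₂ (fL f : L →+* Ω) (f C.X0) ≠ 0 := by
  have h := (s_unit L (algebraMap ℚ L (b 0)) C.psi).map f
  rw [aeval_def, hom_eval₂] at h
  exact h.ne_zero

/-- the point of a homomorphism is not in the kernel -/
theorem ptOf_down : downF b Ω d (ptOf f) ≠ 0 := by
  intro h
  obtain ⟨P, hP, hP'⟩ := C.ker_points (fL f) (ptOf f) h
  apply psi_f f
  rw [psi_eval]
  apply Finset.prod_eq_zero (i := P)
  · rw [mem_kerSet]
    refine ⟨?_, hP⟩
    rintro rfl
    rw [mapF_zero] at hP'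
    exact ptOf_ne_zero f hP'.symm
  · have : xc (b 0) (mapF (b 0) (fL f) P) = f C.X0 := by rw [hP', xc_ptOf]
    rw [xc_mapF] at this
    rw [← this]
    exact sub_self _

/-- homomorphisms are determined by the embedding of constants and the point -/
theorem hom_ext {f g : C.S →+* Ω} (h1 : ∀ c, fL f c = fL g c) (h2 : ptOf f = ptOf g) : f = g := by
  apply SR_hom_ext
  · exact h1
  · have := congrArg (xc (b 0)) h2
    rwa [xc_ptOf, xc_ptOf] at this
  · have := congrArg (yc (b 0)) h2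
    rwa [yc_ptOf, yc_ptOf] at this

/-- every embedding of constants and every point outside the kernel come from a homomorphism -/
theorem exists_hom (C : Ctx b d L) {Ω : Type} [Field Ω] [Algebra ℚ Ω] (τ : L →ₐ[ℚ] Ω)
    (a : Pt (b 0) Ω) (ha : downF b Ω d a ≠ 0) :
    ∃ f : C.S →+* Ω, (∀ c, fL f c = τ c) ∧ ptOf f = a := by
  have ha0 : a ≠ 0 := by
    rintro rfl
    exact ha (down_zero C.tower d)
  have h1 : yc (b 0) a ^ 2 = xc (b 0) a ^ 3 +
      (τ : L →+* Ω) (algebraMap ℚ L (b 0)) * xc (b 0) a := by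
    have := onCurve_xy (b 0) ha0
    rw [OnCurve] at this
    rw [this]
    congr 2
    exact (τ.commutes (b 0)).symm
  have h2 : IsUnit (C.psi.eval₂ (τ : L →+* Ω) (xc (b 0) a)) := by
    rw [psi_eval, isUnit_iff_ne_zero, Finset.prod_ne_zero_iff]
    intro P hP h0
    rw [mem_kerSet] at hP
    have h3 : xc (b 0) a = xc (b 0) (mapF (b 0) τ P) := by
      rw [xc_mapF]
      exact sub_eq_zero.1 h0
    apply ha
    have h4 : downF b Ω d (mapF (b 0) τ P) = 0 := by
      rw [down_mapF C.tower, hP.2, mapF_zero]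
    rcases eq_or_neg C.tower.ne ha0 (mapF_ne_zero.2 hP.1) h3 with h5 | h5
    · rw [h5, h4]
    · rw [h5, down_neg C.tower, h4, neg_zero]
  refine ⟨liftS L (algebraMap ℚ L (b 0)) C.psi (τ : L →+* Ω) _ _ h1 h2, ?_, ?_⟩
  · intro c
    rw [fL_apply]
    exact liftS_C ..
  · rw [ptOf, X0, Y0, liftS_sx, liftS_sy, mk_xy _ ha0]

end Hom

/-- joint injectivity over `Qbar` -/
theorem joint {F G : C.S} (h : ∀ f : C.S →+* Kb ℚ, (∀ c, fL f c = C.ι c) → f F = f G) :
    F = G := by
  have := charZero_Kb ℚ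
  rw [← sub_eq_zero]
  apply SR_joint L _ C.psi C.psi_ne_zero (Kb ℚ) (C.ι : L →+* Kb ℚ)
  intro f hf
  rw [map_sub, h f hf, sub_self]

/-- an ideal on which no homomorphism to a field vanishes is the unit ideal -/
theorem ideal_top (I : Ideal C.S) (h : ∀ (Ω : Type) [Field Ω] [Algebra ℚ Ω] (f : C.S →+* Ω),
    ∃ s ∈ I, f s ≠ 0) : I = ⊤ := by
  by_contra hI
  obtain ⟨M, hM, hIM⟩ := Ideal.exists_le_maximal I hI
  let _ : Field (C.S ⧸ M) := Ideal.Quotient.field M
  let _ : Algebra ℚ (C.S ⧸ M) :=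
    ((Ideal.Quotient.mk M).comp (C.cst.comp (algebraMap ℚ L))).toAlgebra
  obtain ⟨s, hs, hs'⟩ := h (C.S ⧸ M) (Ideal.Quotient.mk M)
  exact hs' (Ideal.Quotient.eq_zero_iff_mem.2 (hIM hs))

/-- an element which does not vanish at any homomorphism to a field is a unit -/
theorem isUnit_of {s : C.S} (h : ∀ (Ω : Type) [Field Ω] [Algebra ℚ Ω] (f : C.S →+* Ω),
    f s ≠ 0) : IsUnit s := by
  rw [← Ideal.span_singleton_eq_top]
  exact C.ideal_top _ fun Ω _ _ f => ⟨s, Ideal.mem_span_singleton_self s, h Ω f⟩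

end Ctx

end BB37
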