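import Mathlib

/-! The ring `k[x, y, 1/psi(x)]` with `y^2 = x^3 + beta x`. -/

namespace BB37

open MvPolynomial

section SR

variable (k : Type) [Field k] (β : k) (ψ : Polynomial k)

/-- the relations -/
noncomputable def relS : Ideal (MvPolynomial (Fin 3) k) :=
  Ideal.span {X 1 ^ 2 - (X 0 ^ 3 + C β * X 0),
    Polynomial.aeval (X 0 : MvPolynomial (Fin 3) k) ψ * X 2 - 1}

/-- the ring `k[x, y, 1/psi(x)]` with `y^2 = x^3 + beta x` -/
def SR : Type := MvPolynomial (Fin 3) k ⧸ relS k β ψ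

noncomputable instance : CommRing (SR k β ψ) :=
  inferInstanceAs (CommRing (MvPolynomial (Fin 3) k ⧸ relS k β ψ))

noncomputable instance : Algebra k (SR k β ψ) :=
  inferInstanceAs (Algebra k (MvPolynomial (Fin 3) k ⧸ relS k β ψ))

/-- the projection -/
noncomputable def piS : MvPolynomial (Fin 3) k →ₐ[k] SR k β ψ := Ideal.Quotient.mkₐ k (relS k β ψ)

theorem piS_surj : Function.Surjective (piS k β ψ) := Ideal.Quotient.mkₐ_surjective k _

/-- the coordinate `x` -/
noncomputable def sx : SR k β ψ := piS k β ψ (X 0)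

/-- the coordinate `y` -/
noncomputable def sy : SR k β ψ := piS k β ψ (X 1)

/-- the inverse of `psi(x)` -/
noncomputable def sw : SR k β ψ := piS k β ψ (X 2)

theorem s_eq : sy k β ψ ^ 2 = sx k β ψ ^ 3 + algebraMap k (SR k β ψ) β * sx k β ψ := by
  have h : X 1 ^ 2 - (X 0 ^ 3 + C β * X 0) ∈ relS k β ψ :=
    Ideal.subset_span (Set.mem_insert _ _)
  have h2 : piS k β ψ (X 1 ^ 2 - (X 0 ^ 3 + C β * X 0)) = 0 := Ideal.Quotient.eq_zero_iff_mem.2 h
  rw [map_sub, map_add, map_mul, map_pow, map_pow] at h2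
  have h3 : piS k β ψ (C β) = algebraMap k (SR k β ψ) β := (piS k β ψ).commutes β
  rw [h3] at h2
  exact sub_eq_zero.1 h2

theorem s_inv : Polynomial.aeval (sx k β ψ) ψ * sw k β ψ = 1 := by
  have h : Polynomial.aeval (X 0 : MvPolynomial (Fin 3) k) ψ * X 2 - 1 ∈ relS k β ψ :=
    Ideal.subset_span (Set.mem_insert_of_mem _ rfl)
  have h2 : piS k β ψ (Polynomial.aeval (X 0 : MvPolynomial (Fin 3) k) ψ * X 2 - 1) = 0 :=
    Ideal.Quotient.eq_zero_iff_mem.2 h
  rw [map_sub, map_mul, map_one, ← Polynomial.aeval_algHom_apply] at h2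
  exact sub_eq_zero.1 h2

theorem s_unit : IsUnit (Polynomial.aeval (sx k β ψ) ψ) := IsUnit.of_mul_eq_one _ (s_inv k β ψ)

section Lift

variable {Ω : Type} [CommRing Ω] (σ : k →+* Ω) (u v : Ω) (h1 : v ^ 2 = u ^ 3 + σ β * u)
  (h2 : IsUnit (ψ.eval₂ σ u))

/-- the universal property -/
noncomputable def liftS : SR k β ψ →+* Ω :=
  Ideal.Quotient.lift (relS k β ψ) (MvPolynomial.eval₂Hom σ ![u, v, ((h2.unit⁻¹ : Ωˣ) : Ω)]) (by
    have hle : relS k β ψ ≤ RingHom.ker (MvPolynomial.eval₂Hom σ ![u, v, ((h2.unit⁻¹ : Ωˣ) : Ω)]) := by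
      rw [relS, Ideal.span_le]
      intro p hp
      rcases hp with rfl | rfl
      · change MvPolynomial.eval₂Hom σ ![u, v, ((h2.unit⁻¹ : Ωˣ) : Ω)] _ = 0
        simp [h1]
      · change MvPolynomial.eval₂Hom σ ![u, v, ((h2.unit⁻¹ : Ωˣ) : Ω)] _ = 0
        have e : MvPolynomial.eval₂Hom σ ![u, v, ((h2.unit⁻¹ : Ωˣ) : Ω)]
            (Polynomial.aeval (X 0 : MvPolynomial (Fin 3) k) ψ) = ψ.eval₂ σ u := by
          rw [Polynomial.aeval_def, Polynomial.hom_eval₂]
          congr 1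
          · ext c
            simp
          · simp
        rw [map_sub, map_mul, e, map_one]
        have e2 : MvPolynomial.eval₂Hom σ ![u, v, ((h2.unit⁻¹ : Ωˣ) : Ω)] (X 2) =
            ((h2.unit⁻¹ : Ωˣ) : Ω) := by simp
        rw [e2, IsUnit.mul_val_inv, sub_self]
    intro a ha
    exact hle ha)

theorem liftS_C (c : k) : liftS k β ψ σ u v h1 h2 (algebraMap k (SR k β ψ) c) = σ c := by
  have : algebraMap k (SR k β ψ) c = Ideal.Quotient.mk (relS k β ψ) (C c) := rfl
  rw [this]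
  exact (Ideal.Quotient.lift_mk _ _ _).trans (by simp)

theorem liftS_sx : liftS k β ψ σ u v h1 h2 (sx k β ψ) = u :=
  (Ideal.Quotient.lift_mk _ _ _).trans (by simp)

theorem liftS_sy : liftS k β ψ σ u v h1 h2 (sy k β ψ) = v :=
  (Ideal.Quotient.lift_mk _ _ _).trans (by simp)

end Lift

variable {k β ψ}

theorem SR_hom_ext {Ω : Type} [CommRing Ω] {f g : SR k β ψ →+* Ω}
    (hC : ∀ c, f (algebraMap k (SR k β ψ) c) = g (algebraMap k (SR k β ψ) c))
    (hx : f (sx k β ψ) = g (sx k β ψ)) (hy : f (sy k β ψ) = g (sy k β ψ)) : f = g := by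
  have hp : f (Polynomial.aeval (sx k β ψ) ψ) = g (Polynomial.aeval (sx k β ψ) ψ) := by
    rw [Polynomial.aeval_def, Polynomial.hom_eval₂, Polynomial.hom_eval₂, hx]
    congr 1
    ext c
    exact hC c
  have hw : f (sw k β ψ) = g (sw k β ψ) := by
    have e1 := congrArg f (s_inv k β ψ)
    have e2 := congrArg g (s_inv k β ψ)
    rw [map_mul, map_one] at e1 e2
    rw [← hp] at e2
    calc f (sw k β ψ) = f (sw k β ψ) * (f (Polynomial.aeval (sx k β ψ) ψ) * g (sw k β ψ)) := by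
          rw [e2, mul_one]
      _ = (f (Polynomial.aeval (sx k β ψ) ψ) * f (sw k β ψ)) * g (sw k β ψ) := by ring
      _ = g (sw k β ψ) := by rw [e1, one_mul]
  have key : f.comp (piS k β ψ : MvPolynomial (Fin 3) k →+* SR k β ψ) =
      g.comp (piS k β ψ : MvPolynomial (Fin 3) k →+* SR k β ψ) := by
    apply MvPolynomial.ringHom_ext
    · intro c
      exact hC c
    · intro i
      fin_cases i
      · exact hx
      · exact hy
      · exact hw
  ext F
  obtain ⟨p, rfl⟩ := piS_surj k β ψ F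
  exact congrArg (fun h => h p) key

end SR

end BB37
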