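import Pool.Agent.Lib.MP_bb37eb_nt.EC.Ring

/-! Translations and the coordinates of the lower curves, as elements of the ring `S`. -/

namespace BB37

namespace Ctx

variable {b : ℕ → ℚ} {d : ℕ} {L : Type} [Field L] [Algebra ℚ L] (C : Ctx b d L)

include C in
/-- the translate of a point outside the kernel by a kernel point is outside the kernel -/
theorem trans_down {Ω : Type} [Field Ω] [Algebra ℚ Ω] (a : Pt (b 0) Ω)
    (ha : downF b Ω d a ≠ 0) (τ : L →ₐ[ℚ] Ω) {P : Pt (b 0) L} (hP : downF b L d P = 0) :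
    downF b Ω d (a + mapF (b 0) τ P) ≠ 0 := by
  rwa [down_add C.tower, down_mapF C.tower, hP, mapF_zero, add_zero]

/-- coordinates of the translate of the generic point -/
theorem exists_trans (P : Pt (b 0) L) (hP : downF b L d P = 0) : ∃ tx ty : C.S,
    ∀ (Ω : Type) [Field Ω] [Algebra ℚ Ω] (f : C.S →+* Ω),
      f tx = xc (b 0) (ptOf f + mapF (b 0) (fL f) P) ∧
      f ty = yc (b 0) (ptOf f + mapF (b 0) (fL f) P) := by
  by_cases h0 : P = 0
  · refine ⟨C.X0, C.Y0, fun Ω _ _ f => ?_⟩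
    rw [h0, mapF_zero, add_zero]
    exact ⟨(xc_ptOf f).symm, (yc_ptOf f).symm⟩
  have hu : IsUnit (C.X0 - C.cst (xc (b 0) P)) := by
    apply C.isUnit_of
    intro Ω _ _ f hf
    rw [map_sub, ← xc_ptOf, ← fL_apply, ← xc_mapF] at hf
    have h1 : downF b Ω d (mapF (b 0) (fL f) P) = 0 := by
      rw [down_mapF C.tower, hP, mapF_zero]
    apply ptOf_down f
    rcases eq_or_neg C.tower.ne (ptOf_ne_zero f) (mapF_ne_zero.2 h0) (sub_eq_zero.1 hf) with h | h
    · rw [h, h1]
    · rw [h, down_neg C.tower, h1, neg_zero]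
  obtain ⟨w, hw⟩ := hu.exists_right_inv
  let l : C.S := (C.Y0 - C.cst (yc (b 0) P)) * w
  let tx : C.S := l ^ 2 - C.X0 - C.cst (xc (b 0) P)
  refine ⟨tx, -(l * (tx - C.X0) + C.Y0), fun Ω _ _ f => ?_⟩
  have h1 : OnCurve (b 0) Ω (fL f (xc (b 0) P)) (fL f (yc (b 0) P)) :=
    onCurve_map (fL f) (onCurve_xy (b 0) h0)
  have hw' : (f C.X0 - fL f (xc (b 0) P)) * f w = 1 := by
    have := congrArg f hw
    rwa [map_mul, map_sub, map_one] at this
  have hne : f C.X0 ≠ fL f (xc (b 0) P) := by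
    intro h
    rw [h, sub_self, zero_mul] at hw'
    exact zero_ne_one hw'
  have hl : f l = (f C.Y0 - fL f (yc (b 0) P)) * f w := by
    rw [map_mul, map_sub]
    rfl
  have hadd := add_mk C.tower.ne (onCurve_f f) h1 hne (f l) (f tx)
    (f (-(l * (tx - C.X0) + C.Y0))) (by rw [hl, mul_assoc, mul_comm (f w), hw', mul_one])
    (by rw [map_sub, map_sub, map_pow]; rfl)
    (by rw [map_neg, map_add, map_mul, map_sub])
  have hsum : ptOf f + mapF (b 0) (fL f) P = BB37.mk (b 0) (f tx)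
      (f (-(l * (tx - C.X0) + C.Y0))) := by
    rw [← hadd, ← mapF_mk C.tower.ne (fL f) (onCurve_xy (b 0) h0), mk_xy (b 0) h0]
    rfl
  have hne0 : ptOf f + mapF (b 0) (fL f) P ≠ 0 := by
    intro h
    apply C.trans_down (ptOf f) (ptOf_down f) (fL f) hP
    rw [h, down_zero C.tower]
  rw [hsum] at hne0 ⊢
  exact ⟨(xc_mk (b 0) C.tower.ne (onCurve_of_mk_ne hne0)).symm,
    (yc_mk (b 0) C.tower.ne (onCurve_of_mk_ne hne0)).symm⟩

theorem down_ne_of_le {Ω : Type} [Field Ω] [Algebra ℚ Ω] {a : Pt (b 0) Ω} (hb : Tower b)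
    {j k : ℕ} (hjk : j ≤ k) (ha : downF b Ω k a ≠ 0) : downF b Ω j a ≠ 0 := by
  intro h
  apply ha
  obtain ⟨m, rfl⟩ := Nat.exists_eq_add_of_le hjk
  clear ha
  induction m with
  | zero => exact h
  | succ m ih => exact ker_mono hb (ih (Nat.le_add_right _ _))

/-- coordinates of the image of the generic point on the lower curves -/
theorem exists_down (j : ℕ) (hj : j ≤ d) : ∃ X Y : C.S,
    ∀ (Ω : Type) [Field Ω] [Algebra ℚ Ω] (f : C.S →+* Ω),
      f X = xc (b j) (downF b Ω j (ptOf f)) ∧ f Y = yc (b j) (downF b Ω j (ptOf f)) := by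
  induction j with
  | zero =>
    exact ⟨C.X0, C.Y0, fun Ω _ _ f => ⟨(xc_ptOf f).symm, (yc_ptOf f).symm⟩⟩
  | succ j ih =>
    obtain ⟨X, Y, h⟩ := ih (Nat.le_of_succ_le hj)
    have hx : ∀ (Ω : Type) [Field Ω] [Algebra ℚ Ω] (f : C.S →+* Ω),
        xc (b j) (downF b Ω j (ptOf f)) ≠ 0 := by
      intro Ω _ _ f hf
      apply down_ne_of_le C.tower hj (ptOf_down f)
      rw [ker_succ C.tower, ← xc_eq_zero (C.tower.ne' j)]
      exact hf
    have hu : IsUnit X := by
      apply C.isUnit_of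
      intro Ω _ _ f hf
      rw [(h Ω f).1] at hf
      exact hx Ω f hf
    obtain ⟨w, hw⟩ := hu.exists_right_inv
    refine ⟨Y ^ 2 * w ^ 2, Y * (C.cst (algebraMap ℚ L (b j)) - X ^ 2) * w ^ 2,
      fun Ω _ _ f => ?_⟩
    have hw' : f w = (xc (b j) (downF b Ω j (ptOf f)))⁻¹ := by
      have := congrArg f hw
      rw [map_mul, map_one, (h Ω f).1] at this
      exact eq_inv_of_mul_eq_one_right this
    have hc : f (C.cst (algebraMap ℚ L (b j))) = algebraMap ℚ Ω (b j) := (fL f).commutes (b j)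
    constructor
    · rw [down_succ, xc_iso_div (C.tower.ne' j) (C.tower.step j) (hx Ω f), map_mul, map_pow,
        map_pow, hw', (h Ω f).2, inv_pow, div_eq_mul_inv]
    · rw [down_succ, yc_iso (C.tower.ne' j) (C.tower.step j) (hx Ω f), map_mul, map_mul, map_sub,
        map_pow, map_pow, hw', (h Ω f).2, (h Ω f).1, hc, inv_pow, div_eq_mul_inv]

end Ctx

end BB37
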